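import Mathlib

set_option autoImplicit false

/-! Holomorphic continuous functions on the closed disc of radius two with values in a
C*-algebra. -/

namespace Q88.CI

open Metric Filter Topology

/-- the closed disc of radius `2` -/
abbrev Dk : Type := closedBall (0 : ℂ) 2

/-- the closed disc of radius `1/4` -/
abbrev Ds : Type := closedBall (0 : ℂ) (1/4)

variable {E : Type*} [CStarAlgebra E]

/-- extension of a function on the closed disc by zero -/
noncomputable def ext (f : C(Dk, E)) (w : ℂ) : E :=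
  open Classical in if h : w ∈ closedBall (0 : ℂ) 2 then f ⟨w, h⟩ else 0

theorem ext_of_mem (f : C(Dk, E)) {w : ℂ} (h : w ∈ closedBall (0 : ℂ) 2) :
    ext f w = f ⟨w, h⟩ := by
  unfold ext; rw [dif_pos h]

/-- holomorphic in the open disc -/
def Hol (f : C(Dk, E)) : Prop := DifferentiableOn ℂ (ext f) (ball (0 : ℂ) 2)

theorem ball_sub {w : ℂ} (h : w ∈ ball (0 : ℂ) 2) : w ∈ closedBall (0 : ℂ) 2 :=
  ball_subset_closedBall h

theorem Hol.congr {f : C(Dk, E)} {g : ℂ → E} (hg : DifferentiableOn ℂ g (ball (0 : ℂ) 2))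
    (h : ∀ w : Dk, f w = g w) : Hol f := by
  apply hg.congr
  intro w hw
  rw [ext_of_mem f (ball_sub hw), h]

theorem hol_const (b : E) : Hol (ContinuousMap.const Dk b) :=
  Hol.congr (g := fun _ => b) (differentiableOn_const b) (fun _ => rfl)

theorem Hol.add {f g : C(Dk, E)} (hf : Hol f) (hg : Hol g) : Hol (f + g) := by
  apply (DifferentiableOn.add hf hg).congr
  intro w hw
  simp only [Pi.add_apply]
  rw [ext_of_mem _ (ball_sub hw), ext_of_mem _ (ball_sub hw), ext_of_mem _ (ball_sub hw)]
  rfl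

theorem Hol.mul {f g : C(Dk, E)} (hf : Hol f) (hg : Hol g) : Hol (f * g) := by
  have h : DifferentiableOn ℂ (fun w => ext f w * ext g w) (ball (0 : ℂ) 2) :=
    DifferentiableOn.mul hf hg
  apply h.congr
  intro w hw
  rw [ext_of_mem _ (ball_sub hw), ext_of_mem _ (ball_sub hw), ext_of_mem _ (ball_sub hw)]
  rfl

theorem hol_closed : IsClosed {f : C(Dk, E) | Hol f} := by
  apply IsSeqClosed.isClosed
  intro u f hu hlim
  have h1 : TendstoLocallyUniformlyOn (fun n => ext (u n)) (ext f) atTop (ball (0 : ℂ) 2) := by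
    apply TendstoUniformlyOn.tendstoLocallyUniformlyOn
    rw [Metric.tendstoUniformlyOn_iff]
    intro ε hε
    have h2 := (tendsto_iff_dist_tendsto_zero.1 hlim).eventually (gt_mem_nhds hε)
    filter_upwards [h2] with n hn
    intro w hw
    rw [ext_of_mem _ (ball_sub hw), ext_of_mem _ (ball_sub hw)]
    rw [dist_comm]
    exact lt_of_le_of_lt (ContinuousMap.dist_apply_le_dist _) hn
  exact h1.differentiableOn (Eventually.of_forall fun n => hu n) isOpen_ball

/-- the closed subalgebra of holomorphic functions -/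
noncomputable def holSub (E : Type*) [CStarAlgebra E] : Subalgebra ℂ C(Dk, E) where
  carrier := {f | Hol f}
  mul_mem' := fun ha hb => ha.mul hb
  add_mem' := fun ha hb => ha.add hb
  algebraMap_mem' := fun r => hol_const (algebraMap ℂ E r)

theorem mem_holSub {f : C(Dk, E)} : f ∈ holSub E ↔ Hol f := Iff.rfl

theorem isClosed_holSub : IsClosed (holSub E : Set C(Dk, E)) := hol_closed

theorem eq_of_ball {f g : C(Dk, E)} (h : ∀ w : Dk, (w : ℂ) ∈ ball (0 : ℂ) 2 → f w = g w) :
    f = g := by
  ext w
  have hcl : closure (ball (0 : ℂ) 2) = closedBall (0 : ℂ) 2 := closure_ball _ (by norm_num)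
  have hw : (w : ℂ) ∈ closure (ball (0 : ℂ) 2) := by rw [hcl]; exact w.2
  -- the set of equality is closed in the disc and contains the dense open disc
  have hcls : IsClosed {v : Dk | f v = g v} := isClosed_eq f.continuous g.continuous
  have hd : w ∈ closure {v : Dk | (v : ℂ) ∈ ball (0 : ℂ) 2} := by
    rw [mem_closure_iff_seq_limit] at hw ⊢
    obtain ⟨x, hx, hxl⟩ := hw
    refine ⟨fun n => ⟨x n, ball_sub (hx n)⟩, fun n => hx n, ?_⟩
    rw [tendsto_subtype_rng]
    exact hxl
  exact (closure_minimal (fun v hv => h v hv) hcls) hd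

theorem Hol.eq_zero {f : C(Dk, E)} (hf : Hol f) {w : ℂ} (hw : w ∈ ball (0 : ℂ) 2) {r : ℝ}
    (hr : 0 < r) (h : ∀ v : Dk, dist (v : ℂ) w ≤ r → f v = 0) : f = 0 := by
  have hA : AnalyticOnNhd ℂ (ext f) (ball (0 : ℂ) 2) :=
    DifferentiableOn.analyticOnNhd hf isOpen_ball
  have hE : ext f =ᶠ[𝓝 w] 0 := by
    have h1 : ball (0 : ℂ) 2 ∩ ball w r ∈ 𝓝 w :=
      inter_mem (isOpen_ball.mem_nhds hw) (ball_mem_nhds w hr)
    filter_upwards [h1] with v hv
    rw [ext_of_mem f (ball_sub hv.1), h ⟨v, ball_sub hv.1⟩ (le_of_lt (mem_ball.1 hv.2))]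
    rfl
  have h2 := hA.eqOn_zero_of_preconnected_of_eventuallyEq_zero
    (convex_ball (0 : ℂ) 2).isPreconnected hw hE
  apply eq_of_ball
  intro v hv
  have := h2 hv
  rw [ext_of_mem f (ball_sub hv)] at this
  exact this

theorem const_of_hol {f : C(Dk, E)} (hf : Hol f) (hf' : Hol (star f)) :
    ∃ b : E, f = ContinuousMap.const Dk b := by
  have hstar : ∀ w ∈ ball (0 : ℂ) 2, ext (star f) w = star (ext f w) := by
    intro w hw
    rw [ext_of_mem _ (ball_sub hw), ext_of_mem _ (ball_sub hw)]
    rfl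
  have hd : ∀ w ∈ ball (0 : ℂ) 2, deriv (ext f) w = 0 := by
    intro w hw
    have h1 : HasDerivAt (ext f) (deriv (ext f) w) w :=
      (hf.differentiableAt (isOpen_ball.mem_nhds hw)).hasDerivAt
    have h2 : HasDerivAt (ext (star f)) (deriv (ext (star f)) w) w :=
      (hf'.differentiableAt (isOpen_ball.mem_nhds hw)).hasDerivAt
    have h1' := (h1.hasFDerivAt).restrictScalars ℝ
    have h2' := (h2.hasFDerivAt).restrictScalars ℝ
    have h3 : HasFDerivAt (fun v => star (ext f v))
        ((starL' ℝ (A := E) : E →L[ℝ] E).comp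
          ((ContinuousLinearMap.toSpanSingleton ℂ (deriv (ext f) w)).restrictScalars ℝ)) w := by
      exact (starL' ℝ (A := E) : E →L[ℝ] E).hasFDerivAt.comp w h1'
    have h4 : HasFDerivAt (fun v => star (ext f v))
        ((ContinuousLinearMap.toSpanSingleton ℂ (deriv (ext (star f)) w)).restrictScalars ℝ) w := by
      apply h2'.congr_of_eventuallyEq
      filter_upwards [isOpen_ball.mem_nhds hw] with v hv
      rw [hstar v hv]
    have h5 := h3.unique h4
    have e1 := congrArg (fun L => L 1) h5
    have e2 := congrArg (fun L => L Complex.I) h5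
    simp at e1 e2
    rw [← e1] at e2
    have e3 : (2 * Complex.I) • star (deriv (ext f) w) = 0 := by
      have : (2 * Complex.I) • star (deriv (ext f) w)
          = Complex.I • star (deriv (ext f) w) + Complex.I • star (deriv (ext f) w) := by
        rw [← add_smul]; ring_nf
      rw [this]
      nth_rewrite 1 [← e2]
      simp
    have e4 : star (deriv (ext f) w) = 0 := by
      rcases smul_eq_zero.1 e3 with h | h
      · exfalso; simp at h
      · exact h
    exact star_eq_zero.1 e4
  have h0 : (0 : ℂ) ∈ ball (0 : ℂ) 2 := by simp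
  refine ⟨ext f 0, ?_⟩
  apply eq_of_ball
  intro v hv
  have h6 := IsOpen.is_const_of_deriv_eq_zero isOpen_ball (convex_ball (0 : ℂ) 2).isPreconnected
    hf (fun x hx => hd x hx) hv h0
  rw [ContinuousMap.const_apply, ← h6, ext_of_mem f (ball_sub hv)]

end Q88.CI
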