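import Mathlib
import Pool.Agent.Q88.CI.Hol

set_option autoImplicit false

namespace Q88.CI

open Metric Filter Topology MeasureTheory

variable {E : Type*} [CStarAlgebra E]

/-- point of the unit circle around `w` -/
noncomputable def pt (w : ℂ) (hw : ‖w‖ ≤ 1) (θ : ℝ) : Dk :=
  ⟨w + Complex.exp (θ * Complex.I), by
    rw [mem_closedBall, dist_zero_right]
    calc ‖w + Complex.exp (θ * Complex.I)‖ ≤ ‖w‖ + ‖Complex.exp (θ * Complex.I)‖ := norm_add_le _ _
      _ ≤ 1 + 1 := by
        have := Complex.norm_exp_ofReal_mul_I θ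
        linarith
      _ = 2 := by norm_num⟩

theorem continuous_pt (w : ℂ) (hw : ‖w‖ ≤ 1) : Continuous (pt w hw) := by
  unfold pt
  apply Continuous.subtype_mk
  fun_prop

/-- the integrand -/
noncomputable def dvi (w : ℂ) (hw : ‖w‖ ≤ 1) (f : C(Dk, E)) (θ : ℝ) : E :=
  Complex.exp (-(θ * Complex.I)) • f (pt w hw θ)

theorem continuous_dvi (w : ℂ) (hw : ‖w‖ ≤ 1) (f : C(Dk, E)) : Continuous (dvi w hw f) := by
  unfold dvi
  apply Continuous.smul
  · fun_prop
  · exact f.continuous.comp (continuous_pt w hw)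

theorem dvi_int (w : ℂ) (hw : ‖w‖ ≤ 1) (f : C(Dk, E)) (a b : ℝ) :
    IntervalIntegrable (dvi w hw f) volume a b :=
  (continuous_dvi w hw f).intervalIntegrable a b

theorem norm_dvi (w : ℂ) (hw : ‖w‖ ≤ 1) (f : C(Dk, E)) (θ : ℝ) : ‖dvi w hw f θ‖ ≤ ‖f‖ := by
  unfold dvi
  rw [norm_smul]
  have h : ‖Complex.exp (-(θ * Complex.I))‖ = 1 := by
    have := Complex.norm_exp_ofReal_mul_I (-θ)
    rw [← this]
    push_cast
    ring_nf
  rw [h, one_mul]
  exact ContinuousMap.norm_coe_le_norm f _

/-- the derivative at `w` of a holomorphic function, as a bounded linear map on all continuous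
functions -/
noncomputable def dv (w : ℂ) (hw : ‖w‖ ≤ 1) : C(Dk, E) →L[ℂ] E :=
  LinearMap.mkContinuous
    { toFun := fun f => ((2 * Real.pi : ℝ) : ℂ)⁻¹ • ∫ θ in (0 : ℝ)..(2 * Real.pi), dvi w hw f θ
      map_add' := by
        intro f g
        rw [← smul_add, ← intervalIntegral.integral_add (dvi_int w hw f _ _) (dvi_int w hw g _ _)]
        congr 1
        apply intervalIntegral.integral_congr
        intro θ _
        simp only [dvi, ContinuousMap.add_apply, smul_add]
      map_smul' := by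
        intro c f
        simp only [RingHom.id_apply]
        rw [smul_comm c]
        congr 1
        rw [← intervalIntegral.integral_smul]
        apply intervalIntegral.integral_congr
        intro θ _
        simp only [dvi, ContinuousMap.smul_apply]
        rw [smul_comm] }
    1 (by
      intro f
      simp only [LinearMap.coe_mk, AddHom.coe_mk]
      rw [norm_smul, one_mul]
      have h1 : ‖∫ θ in (0 : ℝ)..(2 * Real.pi), dvi w hw f θ‖ ≤ ‖f‖ * |2 * Real.pi - 0| := by
        apply intervalIntegral.norm_integral_le_of_norm_le_const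
        intro θ _
        exact norm_dvi w hw f θ
      have hp : (0 : ℝ) < 2 * Real.pi := by positivity
      rw [sub_zero, abs_of_pos hp] at h1
      rw [norm_inv, Complex.norm_real, Real.norm_of_nonneg hp.le, inv_mul_le_iff₀ hp]
      linarith)

theorem dv_apply (w : ℂ) (hw : ‖w‖ ≤ 1) (f : C(Dk, E)) :
    dv w hw f = ((2 * Real.pi : ℝ) : ℂ)⁻¹ • ∫ θ in (0 : ℝ)..(2 * Real.pi), dvi w hw f θ := rfl

theorem exp_int (m : ℤ) : (∫ θ in (0 : ℝ)..(2 * Real.pi), Complex.exp ((m * Complex.I) * θ))
    = if m = 0 then ((2 * Real.pi : ℝ) : ℂ) else 0 := by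
  split_ifs with h
  · subst h
    simp
  · have hc : (m : ℂ) * Complex.I ≠ 0 := by
      simp [h]
    rw [integral_exp_mul_complex hc]
    have : Complex.exp (↑m * Complex.I * ↑(2 * Real.pi)) = 1 := by
      rw [Complex.exp_eq_one_iff]
      exact ⟨m, by push_cast; ring⟩
    rw [this]
    simp

/-- the value on `(z - w)^k b` -/
theorem dv_pow (w : ℂ) (hw : ‖w‖ ≤ 1) (f : C(Dk, E)) (k : ℕ) (b : E)
    (hf : ∀ v : Dk, f v = (((v : ℂ) - w) ^ k) • b) : dv w hw f = if k = 1 then b else 0 := by
  rw [dv_apply]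
  have h1 : ∀ θ : ℝ, dvi w hw f θ = Complex.exp ((((k : ℤ) - 1 : ℤ) * Complex.I) * θ) • b := by
    intro θ
    unfold dvi
    rw [hf, smul_smul]
    congr 1
    unfold pt
    simp only [add_sub_cancel_left]
    rw [← Complex.exp_nat_mul, ← Complex.exp_add]
    congr 1
    push_cast
    ring
  have h2 : (∫ θ in (0 : ℝ)..(2 * Real.pi), dvi w hw f θ)
      = (∫ θ in (0 : ℝ)..(2 * Real.pi), Complex.exp ((((k : ℤ) - 1 : ℤ) * Complex.I) * θ)) • b := by
    rw [← intervalIntegral.integral_smul_const]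
    apply intervalIntegral.integral_congr
    intro θ _
    exact h1 θ
  rw [h2, exp_int]
  by_cases hk : k = 1
  · subst hk
    simp only [Nat.cast_one, sub_self, if_true]
    rw [smul_smul, inv_mul_cancel₀, one_smul]
    have : (2 * Real.pi : ℝ) ≠ 0 := by positivity
    exact_mod_cast this
  · have : ((k : ℤ) - 1 : ℤ) ≠ 0 := by omega
    rw [if_neg this, if_neg hk, zero_smul, smul_zero]

end Q88.CI
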