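import Mathlib
import Pool.Agent.Q88.CI.Der

set_option autoImplicit false

namespace Q88.CI

open Metric Filter Topology
open scoped CStarAlgebra

/-- matrix multiplication rule for upper triangular matrices written with two isometries -/
theorem mat_mul {R : Type*} [Ring R] {t₁ t₁' t₂ t₂' : R} (h11 : t₁' * t₁ = 1) (h22 : t₂' * t₂ = 1)
    (h12 : t₁' * t₂ = 0) (h21 : t₂' * t₁ = 0) (a x b a' x' b' : R) :
    (t₁ * a * t₁' + t₁ * x * t₂' + t₂ * b * t₂') * (t₁ * a' * t₁' + t₁ * x' * t₂' + t₂ * b' * t₂')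
      = t₁ * (a * a') * t₁' + t₁ * (a * x' + x * b') * t₂' + t₂ * (b * b') * t₂' := by
  have e11 : ∀ y, t₁' * (t₁ * y) = y := fun y => by rw [← mul_assoc, h11, one_mul]
  have e22 : ∀ y, t₂' * (t₂ * y) = y := fun y => by rw [← mul_assoc, h22, one_mul]
  have e12 : ∀ y, t₁' * (t₂ * y) = 0 := fun y => by rw [← mul_assoc, h12, zero_mul]
  have e21 : ∀ y, t₂' * (t₁ * y) = 0 := fun y => by rw [← mul_assoc, h21, zero_mul]
  simp only [mul_add, add_mul, mul_assoc, e11, e22, e12, e21, mul_zero, add_zero, zero_add]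
  abel

/-- the data of the construction -/
structure Data (A₀ C : Type*) [CStarAlgebra A₀] [CStarAlgebra C] where
  T₁ : A₀
  T₂ : A₀
  h11 : star T₁ * T₁ = 1
  h22 : star T₂ * T₂ = 1
  hsum : T₁ * star T₁ + T₂ * star T₂ = 1
  th : Bool → C →⋆ₐ[ℂ] A₀
  xi : Bool → Bool → A₀
  xid : ∀ i, xi i i = 1
  xint : ∀ i j z, th j z * xi i j = xi i j * th i z
  xco : ∀ i j, xi i j * star (xi i j) = 1

/-- the big C*-algebra -/
abbrev Big (A₀ C : Type*) [CStarAlgebra A₀] [CStarAlgebra C] : Type _ :=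
  C(Dk, C) × C(Dk, A₀) × (Bool → C(Dk × Ds, A₀))

/-- the two base points -/
def kap (j : Bool) : ℂ := if j then 1 else -1

theorem kap_norm (j : Bool) : ‖kap j‖ ≤ 1 := by
  cases j <;> simp [kap]

/-- the translated small disc -/
noncomputable def rs (j : Bool) : C(Dk × Ds, Dk) where
  toFun p := ⟨kap j + p.2, by
    rw [mem_closedBall, dist_zero_right]
    have h2 := p.2.2
    rw [mem_closedBall, dist_zero_right] at h2
    calc ‖kap j + p.2‖ ≤ ‖kap j‖ + ‖(p.2 : ℂ)‖ := norm_add_le _ _
      _ ≤ 1 + 1/4 := add_le_add (kap_norm j) h2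
      _ ≤ 2 := by norm_num⟩
  continuous_toFun := by
    apply Continuous.subtype_mk
    fun_prop

theorem rs_apply (j : Bool) (p : Dk × Ds) : ((rs j p : Dk) : ℂ) = kap j + p.2 := rfl

namespace Data

variable {A₀ C : Type*} [CStarAlgebra A₀] [CStarAlgebra C] (d : Data A₀ C)

theorem h12 : star d.T₁ * d.T₂ = 0 := by
  have h := congrArg (fun y => star d.T₁ * y * d.T₂) d.hsum
  simp only [mul_add, add_mul, mul_one] at h
  have e1 : star d.T₁ * (d.T₁ * star d.T₁) * d.T₂ = star d.T₁ * d.T₂ := by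
    rw [← mul_assoc, d.h11, one_mul]
  have e2 : star d.T₁ * (d.T₂ * star d.T₂) * d.T₂ = star d.T₁ * d.T₂ := by
    rw [mul_assoc, mul_assoc d.T₂, d.h22, mul_one]
  rw [e1, e2] at h
  simpa using h

theorem h21 : star d.T₂ * d.T₁ = 0 := by
  have := congrArg star d.h12
  simpa using this

/-- the endomorphisms -/
noncomputable def al (i : Bool) : (A₀ × C) →⋆ₐ[ℂ] (A₀ × C) where
  toFun p := (d.T₂ * p.1 * star d.T₂ + d.T₁ * d.th i p.2 * star d.T₁, p.2)
  map_one' := by
    ext
    · simp only [Prod.fst_one, Prod.snd_one, map_one, mul_one]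
      rw [add_comm]; exact d.hsum
    · rfl
  map_mul' p q := by
    ext
    · simp only [Prod.fst_mul, Prod.snd_mul, map_mul]
      have h := mat_mul (t₁ := d.T₁) (t₁' := star d.T₁) (t₂ := d.T₂) (t₂' := star d.T₂)
        d.h11 d.h22 d.h12 d.h21 (d.th i p.2) 0 p.1 (d.th i q.2) 0 q.1
      simp only [mul_zero, zero_mul, add_zero] at h
      rw [add_comm, ← h, add_comm (d.T₁ * (d.th i) p.2 * star d.T₁),
        add_comm (d.T₁ * (d.th i) q.2 * star d.T₁)]
    · rfl
  map_zero' := by
    ext <;> simp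
  map_add' p q := by
    ext
    · simp only [Prod.fst_add, Prod.snd_add, map_add, mul_add, add_mul]
      abel
    · rfl
  commutes' r := by
    ext
    · simp only [Prod.algebraMap_apply, AlgHomClass.commutes]
      rw [Algebra.algebraMap_eq_smul_one, mul_smul_comm, mul_smul_comm, smul_mul_assoc,
        smul_mul_assoc, ← smul_add, mul_one, mul_one, add_comm, d.hsum]
    · rfl
  map_star' p := by
    ext
    · simp only [Prod.fst_star, Prod.snd_star, map_star, star_add, star_mul, star_star, mul_assoc]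
    · rfl

theorem al_apply (i : Bool) (p : A₀ × C) :
    d.al i p = (d.T₂ * p.1 * star d.T₂ + d.T₁ * d.th i p.2 * star d.T₁, p.2) := rfl

/-- the coefficient `th j` applied to a function of the first variable -/
noncomputable def cp (j : Bool) (c : C(Dk, C)) : C(Dk × Ds, A₀) where
  toFun p := d.th j (c p.1)
  continuous_toFun := (map_continuous (d.th j)).comp (c.continuous.comp continuous_fst)

/-- restriction to the small disc -/
noncomputable def rp (j : Bool) (f : C(Dk, A₀)) : C(Dk × Ds, A₀) := f.comp (rs j)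

theorem cp_apply (j : Bool) (c : C(Dk, C)) (p : Dk × Ds) : d.cp j c p = d.th j (c p.1) := rfl

/-- constant function -/
noncomputable def cst (a : A₀) : C(Dk × Ds, A₀) := ContinuousMap.const _ a

theorem cst_mul (a b : A₀) : cst (a * b) = cst a * cst b := rfl
theorem cst_one : cst (1 : A₀) = 1 := rfl
theorem cst_zero : cst (0 : A₀) = 0 := rfl
theorem cst_add (a b : A₀) : cst (a + b) = cst a + cst b := rfl
theorem cst_star (a : A₀) : cst (star a) = star (cst a) := rfl
theorem cst_apply (a : A₀) (p : Dk × Ds) : cst a p = a := rfl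

/-- the third component -/
noncomputable def trd (c : C(Dk, C)) (f : C(Dk, A₀)) (x : Bool → C(Dk × Ds, A₀)) (j : Bool) :
    C(Dk × Ds, A₀) :=
  cst d.T₁ * d.cp j c * cst (star d.T₁) + cst d.T₁ * x j * cst (star d.T₂)
    + cst d.T₂ * rp j f * cst (star d.T₂)

/-- upper triangular elements -/
noncomputable def tri (c : C(Dk, C)) (f : C(Dk, A₀)) (x : Bool → C(Dk × Ds, A₀)) : Big A₀ C :=
  (c, f, d.trd c f x)

theorem k11 : cst (star d.T₁) * cst d.T₁ = 1 := by rw [← cst_mul, d.h11, cst_one]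
theorem k22 : cst (star d.T₂) * cst d.T₂ = 1 := by rw [← cst_mul, d.h22, cst_one]
theorem k12 : cst (star d.T₁) * cst d.T₂ = 0 := by rw [← cst_mul, d.h12, cst_zero]
theorem k21 : cst (star d.T₂) * cst d.T₁ = 0 := by rw [← cst_mul, d.h21, cst_zero]
theorem ksum : cst d.T₁ * cst (star d.T₁) + cst d.T₂ * cst (star d.T₂) = 1 := by
  rw [← cst_mul, ← cst_mul, ← cst_add, d.hsum, cst_one]

theorem cp_mul (j : Bool) (c c' : C(Dk, C)) : d.cp j (c * c') = d.cp j c * d.cp j c' := by
  ext p; simp [cp_apply]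

theorem cp_add (j : Bool) (c c' : C(Dk, C)) : d.cp j (c + c') = d.cp j c + d.cp j c' := by
  ext p; simp [cp_apply]

theorem cp_zero (j : Bool) : d.cp j 0 = 0 := by
  ext p; simp [cp_apply]

theorem rp_mul (j : Bool) (f f' : C(Dk, A₀)) : rp j (f * f') = rp j f * rp j f' := rfl
theorem rp_add (j : Bool) (f f' : C(Dk, A₀)) : rp j (f + f') = rp j f + rp j f' := rfl
theorem rp_zero (j : Bool) : rp j (0 : C(Dk, A₀)) = 0 := rfl

theorem mk_mul (c c' : C(Dk, C)) (f f' : C(Dk, A₀)) (x x' : Bool → C(Dk × Ds, A₀)) :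
    d.tri c f x * d.tri c' f' x' =
      d.tri (c * c') (f * f') (fun j => d.cp j c * x' j + x j * rp j f') := by
  unfold tri
  refine Prod.ext rfl (Prod.ext rfl ?_)
  funext j
  change d.trd c f x j * d.trd c' f' x' j = _
  unfold trd
  rw [mat_mul d.k11 d.k22 d.k12 d.k21, ← cp_mul, ← rp_mul]

theorem mk_add (c c' : C(Dk, C)) (f f' : C(Dk, A₀)) (x x' : Bool → C(Dk × Ds, A₀)) :
    d.tri c f x + d.tri c' f' x' = d.tri (c + c') (f + f') (x + x') := by
  unfold tri
  refine Prod.ext rfl (Prod.ext rfl ?_)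
  funext j
  change d.trd c f x j + d.trd c' f' x' j = d.trd (c + c') (f + f') (x + x') j
  unfold trd
  rw [cp_add, rp_add, Pi.add_apply]
  simp only [mul_add, add_mul]
  abel

theorem mk_one : d.tri 1 1 0 = 1 := by
  unfold tri
  refine Prod.ext rfl (Prod.ext rfl ?_)
  funext j
  change d.trd 1 1 0 j = 1
  unfold trd
  have h1 : d.cp j 1 = 1 := by ext p; simp [cp_apply]
  have h2 : rp j (1 : C(Dk, A₀)) = 1 := rfl
  rw [h1, h2, Pi.zero_apply, mul_one, mul_one, mul_zero, zero_mul, add_zero]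
  exact d.ksum

theorem mk_smul (r : ℂ) (c : C(Dk, C)) (f : C(Dk, A₀)) (x : Bool → C(Dk × Ds, A₀)) :
    r • d.tri c f x = d.tri (r • c) (r • f) (r • x) := by
  unfold tri
  refine Prod.ext rfl (Prod.ext rfl ?_)
  funext j
  change r • d.trd c f x j = d.trd (r • c) (r • f) (r • x) j
  unfold trd
  have h1 : d.cp j (r • c) = r • d.cp j c := by ext p; simp [cp_apply]
  have h2 : rp j (r • f) = r • rp j f := rfl
  rw [h1, h2, Pi.smul_apply]
  simp only [mul_smul_comm, smul_mul_assoc, smul_add]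

/-- extraction of the corner -/
noncomputable def cx (y : Big A₀ C) (j : Bool) : C(Dk × Ds, A₀) :=
  cst (star d.T₁) * y.2.2 j * cst d.T₂

theorem cx_mk (c : C(Dk, C)) (f : C(Dk, A₀)) (x : Bool → C(Dk × Ds, A₀)) :
    d.cx (d.tri c f x) = x := by
  funext j
  change cst (star d.T₁) * d.trd c f x j * cst d.T₂ = x j
  unfold trd
  have e11 : ∀ y, cst (star d.T₁) * (cst d.T₁ * y) = y := fun y => by
    rw [← mul_assoc, d.k11, one_mul]
  have e12 : ∀ y, cst (star d.T₁) * (cst d.T₂ * y) = 0 := fun y => by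
    rw [← mul_assoc, d.k12, zero_mul]
  simp only [mul_add, add_mul, mul_assoc, e11, e12, d.k12, d.k22, mul_zero, mul_one, add_zero,
    zero_add]

theorem mk_inj {c c' : C(Dk, C)} {f f' : C(Dk, A₀)} {x x' : Bool → C(Dk × Ds, A₀)}
    (h : d.tri c f x = d.tri c' f' x') : c = c' ∧ f = f' ∧ x = x' := by
  refine ⟨congrArg (fun y => y.1) h, congrArg (fun y => y.2.1) h, ?_⟩
  rw [← d.cx_mk c f x, h, d.cx_mk]

theorem mk_zero : d.tri 0 0 0 = 0 := by
  have := d.mk_smul 0 0 0 0
  rw [zero_smul] at this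
  rw [this]
  simp

/-- the star of an element without corner -/
theorem mk_star0 (c : C(Dk, C)) (f : C(Dk, A₀)) : star (d.tri c f 0) = d.tri (star c) (star f) 0 := by
  unfold tri
  refine Prod.ext rfl (Prod.ext rfl ?_)
  funext j
  change star (d.trd c f 0 j) = d.trd (star c) (star f) 0 j
  unfold trd
  have h1 : d.cp j (star c) = star (d.cp j c) := by ext p; simp [cp_apply, map_star]
  have h2 : rp j (star f) = star (rp j f) := rfl
  rw [h1, h2]
  simp only [Pi.zero_apply, mul_zero, zero_mul, add_zero, star_add, star_mul, cst_star, star_star,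
    mul_assoc]

/-- the inclusion of the coefficient algebra -/
noncomputable def inc : (A₀ × C) →⋆ₐ[ℂ] Big A₀ C where
  toFun p := d.tri (ContinuousMap.const _ p.2) (ContinuousMap.const _ p.1) 0
  map_one' := d.mk_one
  map_mul' p q := by
    rw [d.mk_mul]
    congr 1
    funext j
    simp
  map_zero' := d.mk_zero
  map_add' p q := by
    rw [d.mk_add]
    congr 1
    simp
  commutes' r := by
    have h1 : (algebraMap ℂ (Big A₀ C)) r = r • d.tri 1 1 0 := by
      rw [d.mk_one, Algebra.algebraMap_eq_smul_one]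
    rw [h1, d.mk_smul, smul_zero]
    rw [Algebra.algebraMap_eq_smul_one]
    rfl
  map_star' p := by
    rw [d.mk_star0]
    rfl

theorem inc_apply (p : A₀ × C) :
    d.inc p = d.tri (ContinuousMap.const _ p.2) (ContinuousMap.const _ p.1) 0 := rfl

theorem inc_injective : Function.Injective d.inc := by
  intro p q h
  obtain ⟨h1, h2, -⟩ := d.mk_inj h
  have z : Dk := ⟨0, by simp⟩
  have e1 := DFunLike.congr_fun h1 z
  have e2 := DFunLike.congr_fun h2 z
  exact Prod.ext e2 e1

/-- the coordinate function times the unit -/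
noncomputable def zf : C(Dk, C) where
  toFun w := (w : ℂ) • (1 : C)
  continuous_toFun := by fun_prop

/-- the second component of the generator -/
noncomputable def fs (i : Bool) : C(Dk, A₀) where
  toFun w := ((w : ℂ) - kap i) • star d.T₂
  continuous_toFun := by fun_prop

/-- the generator with base point `i` -/
noncomputable def s (i : Bool) : Big A₀ C :=
  d.tri zf (d.fs i) (fun j => cst (d.xi i j * star d.T₁))

theorem inc_mul_s (i : Bool) (p : A₀ × C) : d.inc p * d.s i = d.s i * d.inc (d.al i p) := by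
  unfold s
  rw [inc_apply, inc_apply, d.mk_mul, d.mk_mul]
  congr 1
  · ext w
    simp [zf, al_apply]
  · ext w
    simp only [ContinuousMap.mul_apply, ContinuousMap.const_apply, al_apply]
    change p.1 * (((w : ℂ) - kap i) • star d.T₂) = (((w : ℂ) - kap i) • star d.T₂) * _
    rw [mul_smul_comm, smul_mul_assoc]
    congr 1
    rw [mul_add, ← mul_assoc, ← mul_assoc, d.h22, one_mul, ← mul_assoc, ← mul_assoc, d.h21,
      zero_mul, zero_mul, add_zero]
  · funext j
    ext q
    simp only [Pi.zero_apply, zero_mul, add_zero, mul_zero, zero_add, ContinuousMap.mul_apply]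
    change d.th j p.2 * (d.xi i j * star d.T₁) = (d.xi i j * star d.T₁) *
      (d.T₂ * p.1 * star d.T₂ + d.T₁ * d.th i p.2 * star d.T₁)
    have e : star d.T₁ * (d.T₂ * p.1 * star d.T₂ + d.T₁ * d.th i p.2 * star d.T₁)
        = d.th i p.2 * star d.T₁ := by
      rw [mul_add, ← mul_assoc, ← mul_assoc, d.h12, zero_mul, zero_mul, zero_add, ← mul_assoc,
        ← mul_assoc, d.h11, one_mul]
    rw [mul_assoc, e, ← mul_assoc, ← mul_assoc, d.xint]

end Data

end Q88.CI
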