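import Mathlib
import Pool.Agent.Q88.CI.Cons

set_option autoImplicit false

namespace Q88.CI

open Metric Filter Topology
open scoped CStarAlgebra

namespace Data

variable {A₀ C : Type*} [CStarAlgebra A₀] [CStarAlgebra C] (d : Data A₀ C)

theorem continuous_cp (j : Bool) : Continuous (d.cp j) := by
  have h : d.cp j = fun c => (⟨fun z => d.th j z, map_continuous (d.th j)⟩ : C(C, A₀)).comp
      (c.comp (⟨Prod.fst, continuous_fst⟩ : C(Dk × Ds, Dk))) := by
    funext c; rfl
  rw [h]
  exact (ContinuousMap.continuous_postcomp _).comp (ContinuousMap.continuous_precomp _)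

theorem continuous_rp (j : Bool) : Continuous (rp (A₀ := A₀) j) :=
  ContinuousMap.continuous_precomp _

theorem continuous_cx (j : Bool) : Continuous (fun y : Big A₀ C => d.cx y j) := by
  unfold cx
  apply Continuous.mul
  · apply Continuous.mul continuous_const
    exact (continuous_apply j).comp (continuous_snd.comp continuous_snd)
  · exact continuous_const

/-- holomorphic upper triangular elements -/
def IsStr (y : Big A₀ C) : Prop :=
  Hol y.1 ∧ Hol y.2.1 ∧ ∀ j, y.2.2 j = d.trd y.1 y.2.1 (d.cx y) j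

theorem isStr_iff (y : Big A₀ C) :
    d.IsStr y ↔ ∃ c f x, Hol c ∧ Hol f ∧ y = d.tri c f x := by
  constructor
  · rintro ⟨h1, h2, h3⟩
    exact ⟨y.1, y.2.1, d.cx y, h1, h2, Prod.ext rfl (Prod.ext rfl (funext h3))⟩
  · rintro ⟨c, f, x, hc, hf, rfl⟩
    refine ⟨hc, hf, fun j => ?_⟩
    rw [cx_mk]
    rfl

theorem isStr_closed : IsClosed {y : Big A₀ C | d.IsStr y} := by
  have e : {y : Big A₀ C | d.IsStr y} = {y | Hol y.1} ∩ ({y | Hol y.2.1} ∩
      ⋂ j, {y | y.2.2 j = d.trd y.1 y.2.1 (d.cx y) j}) := by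
    ext y
    simp only [IsStr, Set.mem_inter_iff, Set.mem_ofPred_eq, Set.mem_iInter]
  rw [e]
  refine IsClosed.inter (hol_closed.preimage continuous_fst) (IsClosed.inter
    (hol_closed.preimage (continuous_fst.comp continuous_snd)) (isClosed_iInter fun j => ?_))
  apply isClosed_eq
  · exact (continuous_apply j).comp (continuous_snd.comp continuous_snd)
  · unfold trd
    apply Continuous.add
    · apply Continuous.add
      · exact (continuous_const.mul ((d.continuous_cp j).comp continuous_fst)).mul continuous_const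
      · exact (continuous_const.mul (d.continuous_cx j)).mul continuous_const
    · exact (continuous_const.mul ((continuous_rp j).comp
        (continuous_fst.comp continuous_snd))).mul continuous_const

/-- the closed subalgebra of holomorphic upper triangular elements -/
noncomputable def str : Subalgebra ℂ (Big A₀ C) where
  carrier := {y | d.IsStr y}
  mul_mem' := by
    intro a b ha hb
    obtain ⟨c, f, x, hc, hf, rfl⟩ := (d.isStr_iff _).1 ha
    obtain ⟨c', f', x', hc', hf', rfl⟩ := (d.isStr_iff _).1 hb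
    exact (d.isStr_iff _).2 ⟨_, _, _, hc.mul hc', hf.mul hf', d.mk_mul _ _ _ _ _ _⟩
  add_mem' := by
    intro a b ha hb
    obtain ⟨c, f, x, hc, hf, rfl⟩ := (d.isStr_iff _).1 ha
    obtain ⟨c', f', x', hc', hf', rfl⟩ := (d.isStr_iff _).1 hb
    exact (d.isStr_iff _).2 ⟨_, _, _, hc.add hc', hf.add hf', d.mk_add _ _ _ _ _ _⟩
  algebraMap_mem' := by
    intro r
    have h : (algebraMap ℂ (Big A₀ C)) r = d.inc (algebraMap ℂ (A₀ × C) r) := by
      rw [AlgHomClass.commutes]
    rw [Set.mem_ofPred_eq, h, inc_apply]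
    exact (d.isStr_iff _).2 ⟨_, _, _, hol_const _, hol_const _, rfl⟩

theorem mem_str {y : Big A₀ C} :
    y ∈ d.str ↔ ∃ c f x, Hol c ∧ Hol f ∧ y = d.tri c f x := d.isStr_iff y

theorem hol_zf : Hol (zf : C(Dk, C)) :=
  Hol.congr (g := fun w => w • (1 : C)) (by fun_prop) (fun _ => rfl)

theorem hol_fs (i : Bool) : Hol (d.fs i) :=
  Hol.congr (g := fun w => (w - kap i) • star d.T₂) (by fun_prop) (fun _ => rfl)

/-- the operator algebra with base point `i` -/
noncomputable def D (i : Bool) : Subalgebra ℂ (Big A₀ C) :=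
  (Algebra.adjoin ℂ ({d.s i} ∪ Set.range d.inc)).topologicalClosure

theorem D_closed (i : Bool) : IsClosed (d.D i : Set (Big A₀ C)) :=
  Subalgebra.isClosed_topologicalClosure _

theorem s_mem (i : Bool) : d.s i ∈ d.D i :=
  Subalgebra.le_topologicalClosure _ (Algebra.subset_adjoin (Or.inl rfl))

theorem inc_mem (i : Bool) (p : A₀ × C) : d.inc p ∈ d.D i :=
  Subalgebra.le_topologicalClosure _ (Algebra.subset_adjoin (Or.inr ⟨p, rfl⟩))

theorem D_le {i : Bool} {S : Subalgebra ℂ (Big A₀ C)} (hS : IsClosed (S : Set (Big A₀ C)))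
    (h1 : d.s i ∈ S) (h2 : ∀ p, d.inc p ∈ S) : d.D i ≤ S := by
  refine Subalgebra.topologicalClosure_minimal ?_ hS
  rw [Algebra.adjoin_le_iff]
  rintro y (hy | ⟨p, rfl⟩)
  · rw [Set.mem_singleton_iff.1 hy]; exact h1
  · exact h2 p

theorem D_le_str (i : Bool) : d.D i ≤ d.str := by
  apply d.D_le d.isStr_closed
  · exact d.mem_str.2 ⟨_, _, _, hol_zf, d.hol_fs i, rfl⟩
  · intro p
    exact d.mem_str.2 ⟨_, _, _, hol_const _, hol_const _, d.inc_apply p⟩

/-- a disc without one point is dense -/
theorem dense_ne {R : ℝ} (hR : 0 < R) (w₀ : ℂ) :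
    Dense {v : closedBall (0 : ℂ) R | (v : ℂ) ≠ w₀} := by
  intro v
  by_cases hv : (v : ℂ) = w₀
  · -- another point
    obtain ⟨u, hu, huv⟩ : ∃ u ∈ closedBall (0 : ℂ) R, u ≠ (v : ℂ) := by
      by_cases h0 : (v : ℂ) = 0
      · refine ⟨(R : ℂ), ?_, ?_⟩
        · rw [mem_closedBall, dist_zero_right, Complex.norm_real, Real.norm_of_nonneg hR.le]
        · rw [h0]; exact_mod_cast hR.ne'
      · exact ⟨0, by simp [hR.le], fun h => h0 h.symm⟩
    have hmem : ∀ n : ℕ, (v : ℂ) + ((1 / ((n : ℝ) + 1) : ℝ)) • (u - (v : ℂ)) ∈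
        closedBall (0 : ℂ) R := by
      intro n
      have hc := convex_closedBall (0 : ℂ) R
      have hn : (0 : ℝ) < (n : ℝ) + 1 := by positivity
      have h1 : (0 : ℝ) ≤ 1 / ((n : ℝ) + 1) := by positivity
      have h2 : 1 / ((n : ℝ) + 1) ≤ 1 := by
        rw [div_le_one hn]
        have : (0 : ℝ) ≤ n := Nat.cast_nonneg n
        linarith
      exact hc.add_smul_sub_mem v.2 hu ⟨h1, h2⟩
    rw [mem_closure_iff_seq_limit]
    refine ⟨fun n => ⟨_, hmem n⟩, ?_, ?_⟩
    · intro n
      simp only [Set.mem_ofPred_eq]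
      rw [← hv]
      intro h
      have h3 : ((1 / ((n : ℝ) + 1) : ℝ)) • (u - (v : ℂ)) = 0 := by
        simpa using h
      rcases smul_eq_zero.1 h3 with h4 | h4
      · have : (0 : ℝ) < 1 / ((n : ℝ) + 1) := by positivity
        exact this.ne' h4
      · exact huv (sub_eq_zero.1 h4)
    · rw [tendsto_subtype_rng]
      have h5 : Tendsto (fun n : ℕ => (v : ℂ) + ((1 / ((n : ℝ) + 1) : ℝ)) • (u - (v : ℂ))) atTop
          (𝓝 ((v : ℂ) + (0 : ℝ) • (u - (v : ℂ)))) :=
        tendsto_const_nhds.add (tendsto_one_div_add_atTop_nhds_zero_nat.smul_const _)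
      rw [zero_smul, add_zero] at h5
      exact h5
  · exact subset_closure hv

/-- a continuous function on the disc vanishes when multiplied by `w - w₀` it vanishes -/
theorem zero_of_smul {E : Type*} [CStarAlgebra E] {f : C(Dk, E)} (w₀ : ℂ)
    (h : ∀ w : Dk, ((w : ℂ) - w₀) • f w = 0) : f = 0 := by
  apply DFunLike.coe_injective
  apply Continuous.ext_on (dense_ne (R := 2) (by norm_num) w₀) f.continuous continuous_const
  intro w hw
  rcases smul_eq_zero.1 (h w) with h2 | h2
  · exact absurd (sub_eq_zero.1 h2) hw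
  · exact h2

theorem zero_of_smul1 {E : Type*} [CStarAlgebra E] {f : C(Dk × Ds, E)}
    (h : ∀ q : Dk × Ds, (q.1 : ℂ) • f q = 0) : f = 0 := by
  have hd : Dense {q : Dk × Ds | (q.1 : ℂ) ≠ 0} := by
    have := (dense_ne (R := 2) (by norm_num) 0).prod (dense_univ (X := Ds))
    convert this using 1
    ext q
    simp
  apply DFunLike.coe_injective
  apply Continuous.ext_on hd f.continuous continuous_const
  intro w hw
  rcases smul_eq_zero.1 (h w) with h2 | h2
  · exact absurd h2 hw
  · exact h2

theorem zero_of_smul2 {E : Type*} [CStarAlgebra E] {f : C(Dk × Ds, E)} (w₀ : ℂ)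
    (h : ∀ q : Dk × Ds, ((q.2 : ℂ) - w₀) • f q = 0) : f = 0 := by
  have hd : Dense {q : Dk × Ds | (q.2 : ℂ) ≠ w₀} := by
    have := (dense_univ (X := Dk)).prod (dense_ne (R := 1/4) (by norm_num) w₀)
    convert this using 1
    ext q
    simp
  apply DFunLike.coe_injective
  apply Continuous.ext_on hd f.continuous continuous_const
  intro w hw
  rcases smul_eq_zero.1 (h w) with h2 | h2
  · exact absurd (sub_eq_zero.1 h2) hw
  · exact h2

theorem kap_ball (i : Bool) : kap i ∈ ball (0 : ℂ) 2 := by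
  rw [mem_ball, dist_zero_right]
  exact lt_of_le_of_lt (kap_norm i) (by norm_num)

/-- `s i` is not a left divisor of zero -/
theorem cancel_left (i : Bool) {y : Big A₀ C} (hy : y ∈ d.str) (h : d.s i * y = 0) : y = 0 := by
  obtain ⟨c, f, x, hc, hf, rfl⟩ := d.mem_str.1 hy
  unfold s at h
  rw [mk_mul, ← d.mk_zero] at h
  obtain ⟨e1, e2, e3⟩ := d.mk_inj h
  have hc0 : c = 0 := by
    apply zero_of_smul 0
    intro w
    have := DFunLike.congr_fun e1 w
    rw [sub_zero]
    change ((w : ℂ) • (1 : C)) * c w = 0 at this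
    rwa [smul_mul_assoc, one_mul] at this
  have hf1 : ContinuousMap.const _ (star d.T₂) * f = 0 := by
    apply zero_of_smul (kap i)
    intro w
    have := DFunLike.congr_fun e2 w
    change (((w : ℂ) - kap i) • star d.T₂) * f w = 0 at this
    rw [smul_mul_assoc] at this
    exact this
  have hf2 : ∀ w, star d.T₂ * f w = 0 := fun w => DFunLike.congr_fun hf1 w
  have hx : ∀ j, ∀ q : Dk × Ds, (q.1 : ℂ) • x j q + d.xi i j * star d.T₁ * f (rs j q) = 0 := by
    intro j q
    have := DFunLike.congr_fun (congrFun e3 j) q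
    change d.th j ((q.1 : ℂ) • (1 : C)) * x j q + d.xi i j * star d.T₁ * f (rs j q) = 0 at this
    rwa [map_smul, map_one, smul_mul_assoc, one_mul] at this
  have hf0 : f = 0 := by
    apply hf.eq_zero (kap_ball i) (r := 1/4) (by norm_num)
    intro v hv
    have hm : (v : ℂ) - kap i ∈ closedBall (0 : ℂ) (1/4) := by
      rw [mem_closedBall, dist_zero_right]
      rwa [dist_eq_norm] at hv
    have h1 := hx i (⟨0, by simp⟩, ⟨(v : ℂ) - kap i, hm⟩)
    have hr : rs i (⟨0, by simp⟩, ⟨(v : ℂ) - kap i, hm⟩) = v := by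
      apply Subtype.ext
      rw [rs_apply]
      simp
    rw [hr, d.xid, one_mul, zero_smul, zero_add] at h1
    calc f v = (d.T₁ * star d.T₁ + d.T₂ * star d.T₂) * f v := by rw [d.hsum, one_mul]
      _ = 0 := by rw [add_mul, mul_assoc, mul_assoc, h1, hf2, mul_zero, mul_zero, add_zero]
  subst hf0
  have hx0 : x = 0 := by
    funext j
    apply zero_of_smul1
    intro q
    have := hx j q
    simpa using this
  rw [hc0, hx0, d.mk_zero]

/-- `s i` is not a right divisor of zero -/
theorem cancel_right (i : Bool) {y : Big A₀ C} (hy : y ∈ d.str) (h : y * d.s i = 0) : y = 0 := by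
  obtain ⟨c, f, x, hc, hf, rfl⟩ := d.mem_str.1 hy
  unfold s at h
  rw [mk_mul, ← d.mk_zero] at h
  obtain ⟨e1, e2, e3⟩ := d.mk_inj h
  have hc0 : c = 0 := by
    apply zero_of_smul 0
    intro w
    have := DFunLike.congr_fun e1 w
    rw [sub_zero]
    change c w * ((w : ℂ) • (1 : C)) = 0 at this
    rwa [mul_smul_comm, mul_one] at this
  have hcan : ∀ a : A₀, a * star d.T₂ = 0 → a = 0 := by
    intro a ha
    have := congrArg (fun y => y * d.T₂) ha
    simpa [mul_assoc, d.h22] using this
  have hf0 : f = 0 := by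
    apply zero_of_smul (kap i)
    intro w
    have := DFunLike.congr_fun e2 w
    change f w * (((w : ℂ) - kap i) • star d.T₂) = 0 at this
    rw [mul_smul_comm, ← smul_mul_assoc] at this
    exact hcan _ this
  subst hc0 hf0
  have hx0 : x = 0 := by
    funext j
    apply zero_of_smul2 (kap i - kap j)
    intro q
    have := DFunLike.congr_fun (congrFun e3 j) q
    change d.th j 0 * (d.xi i j * star d.T₁) + x j q * ((((rs j q : Dk) : ℂ) - kap i) • star d.T₂)
      = 0 at this
    rw [map_zero, zero_mul, zero_add, mul_smul_comm, ← smul_mul_assoc, rs_apply] at this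
    have h2 := hcan _ this
    have e : (q.2 : ℂ) - (kap i - kap j) = kap j + q.2 - kap i := by ring
    rw [e]
    exact h2
  rw [hx0, d.mk_zero]

/-- the diagonal -/
theorem diag_str {y : Big A₀ C} (hy : y ∈ d.str) (hy' : star y ∈ d.str) : ∃ p, y = d.inc p := by
  obtain ⟨c, f, x, hc, hf, rfl⟩ := d.mem_str.1 hy
  obtain ⟨c', f', x', hc', hf', h⟩ := d.mem_str.1 hy'
  have e1 : star c = c' := congrArg (fun y => y.1) h
  have e2 : star f = f' := congrArg (fun y => y.2.1) h
  have e3 : ∀ j, star (d.trd c f x j) = d.trd c' f' x' j :=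
    fun j => congrFun (congrArg (fun y => y.2.2) h) j
  obtain ⟨z, hz⟩ := const_of_hol hc (by rw [e1]; exact hc')
  obtain ⟨a, ha⟩ := const_of_hol hf (by rw [e2]; exact hf')
  have hx : x = 0 := by
    funext j
    have h4 := congrArg (fun u => cst (star d.T₂) * u * cst d.T₁) (e3 j)
    have h5 : cst (star d.T₂) * (d.trd c' f' x' j) * cst d.T₁ = 0 := by
      unfold trd
      have e21 : ∀ y, cst (star d.T₂) * (cst d.T₁ * y) = 0 := fun y => by
        rw [← mul_assoc, d.k21, zero_mul]
      have e22 : ∀ y, cst (star d.T₂) * (cst d.T₂ * y) = y := fun y => by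
        rw [← mul_assoc, d.k22, one_mul]
      simp only [mul_add, add_mul, mul_assoc, e21, e22, d.k21, mul_zero, add_zero, zero_mul]
    have h6 : cst (star d.T₂) * star (d.trd c f x j) * cst d.T₁ = star (x j) := by
      have : star (cst (star d.T₁) * d.trd c f x j * cst d.T₂) = star (x j) := by
        have := congrFun (d.cx_mk c f x) j
        exact congrArg star this
      rw [← this]
      simp only [star_mul, cst_star, star_star, mul_assoc]
    have h7 : star (x j) = 0 := by rw [← h6, ← h5]; exact h4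
    exact star_eq_zero.1 h7
  refine ⟨(a, z), ?_⟩
  rw [inc_apply, hz, ha, hx]

end Data

end Q88.CI
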