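import Mathlib

set_option autoImplicit false

/-! Multivariable C*-dynamical systems, their correspondences and associated operator algebras. -/

namespace Q88.CI

/-- The diagonal `D ∩ D*` of a subalgebra of a C*-algebra. -/
def diag {B : Type*} [CStarAlgebra B] (D : Subalgebra ℂ B) : Set B :=
  {x | x ∈ D ∧ star x ∈ D}

/-- `D`, a norm closed unital subalgebra of the C*-algebra `B`, is an operator algebra associated
with the multivariable C*-dynamical system `(A, α)`: for some identification `ι` of `A` with the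
diagonal of `D` and some `s₁, …, s_n ∈ D`,
(1) there is a bounded idempotent linear map of `D` with range the diagonal;
(2) no `s_i` is a left or a right divisor of zero in `D`, and `a s_i = s_i α_i(a)`;
(3) `D` is the closed linear span of the monomials `s_w a`, `w` a word in the letters `1, …, n`;
(4) for each `i` there is a bounded idempotent linear map of `D` that fixes every `s_i a` and
annihilates every other monomial. -/
def IsAssociated {A : Type*} [CStarAlgebra A] {n : ℕ} (α : Fin n → A →⋆ₐ[ℂ] A)
    {B : Type*} [CStarAlgebra B] (D : Subalgebra ℂ B) : Prop :=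
  IsClosed (D : Set B) ∧
  ∃ (ι : A →⋆ₐ[ℂ] B) (s : Fin n → B),
    Function.Injective ι ∧ Set.range ι = diag D ∧ (∀ i, s i ∈ D) ∧
    (∃ E : D →L[ℂ] D, (∀ x, E (E x) = E x) ∧ Set.range (fun x => (E x : B)) = diag D) ∧
    (∀ i, ∀ y ∈ D, (y * s i = 0 → y = 0) ∧ (s i * y = 0 → y = 0)) ∧
    (∀ i a, ι a * s i = s i * ι (α i a)) ∧
    (D : Set B) = closure (Submodule.span ℂ
      {x | ∃ (w : List (Fin n)) (a : A), x = (w.map s).prod * ι a} : Set B) ∧
    (∀ i, ∃ F : D →L[ℂ] D, (∀ x, F (F x) = F x) ∧
      (∀ (a : A) (x : D), (x : B) = s i * ι a → F x = x) ∧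
      (∀ (w : List (Fin n)) (a : A) (x : D), w ≠ [i] → (x : B) = (w.map s).prod * ι a →
        F x = 0))

/-- The `A`-valued inner product of the right Hilbert module `A^n`. -/
def ip {A : Type*} [CStarAlgebra A] {n : ℕ} (x y : Fin n → A) : A := ∑ i, star (x i) * y i

/-- The correspondences `X_(A,α) = ⊕ A_{α_i}` and `X_(B,β)` are unitarily equivalent: there are a
*-isomorphism `γ : A → B` and a surjective linear map `U : A^m → B^n` that respects, through `γ`,
the inner products and the left and right actions (`a · x · b` has coordinates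
`α_i(a) x_i b`). -/
def UnitarilyEquivalent {A B : Type*} [CStarAlgebra A] [CStarAlgebra B] {m n : ℕ}
    (α : Fin m → A →⋆ₐ[ℂ] A) (β : Fin n → B →⋆ₐ[ℂ] B) : Prop :=
  ∃ (γ : A ≃⋆ₐ[ℂ] B) (U : (Fin m → A) →ₗ[ℂ] (Fin n → B)), Function.Surjective U ∧
    (∀ x y, ip (U x) (U y) = γ (ip x y)) ∧
    (∀ (a : A) (x : Fin m → A) (b : A),
      U (fun i => α i a * x i * b) = fun j => β j (γ a) * U x j * γ b)

end Q88.CI
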