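import Mathlib
import Pool.Agent.Q88.CI.Alg

set_option autoImplicit false

namespace Q88.CI

open Metric Filter Topology
open scoped CStarAlgebra

namespace Data

variable {A₀ C : Type*} [CStarAlgebra A₀] [CStarAlgebra C] (d : Data A₀ C)

/-- corner function with polynomial coefficient -/
noncomputable def yx (i : Bool) (p : Polynomial ℂ) (b : A₀) (j : Bool) : C(Dk × Ds, A₀) where
  toFun q := (p.eval (kap j + q.2)) • (d.xi i j * b)
  continuous_toFun := by
    apply Continuous.smul _ continuous_const
    exact p.continuous.comp (by fun_prop)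

theorem yx_apply (i : Bool) (p : Polynomial ℂ) (b : A₀) (j : Bool) (q : Dk × Ds) :
    d.yx i p b j q = (p.eval (kap j + q.2)) • (d.xi i j * b) := rfl

/-- corner element with polynomial coefficient -/
noncomputable def Yp (i : Bool) (p : Polynomial ℂ) (b : A₀) : Big A₀ C := d.tri 0 0 (d.yx i p b)

theorem Yp_one (i : Bool) (b : A₀) : d.s i * d.inc (d.T₁ * b, 0) = d.Yp i 1 b := by
  unfold s Yp
  rw [inc_apply, mk_mul]
  congr 1
  · ext w
    simp
  · ext w
    change (((w : ℂ) - kap i) • star d.T₂) * (d.T₁ * b) = 0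
    rw [smul_mul_assoc, ← mul_assoc, d.h21, zero_mul, smul_zero]
  · funext j
    ext q
    simp only [Pi.zero_apply, mul_zero, zero_add, ContinuousMap.mul_apply, yx_apply,
      Polynomial.eval_one, one_smul]
    change d.xi i j * star d.T₁ * (d.T₁ * b) = d.xi i j * b
    rw [mul_assoc, ← mul_assoc (star d.T₁), d.h11, one_mul]

theorem Yp_step (i : Bool) (p : Polynomial ℂ) (b : A₀) :
    d.Yp i p b * d.s i * d.inc (d.T₂, 0) = d.Yp i (p * (Polynomial.X - Polynomial.C (kap i))) b := by
  unfold s Yp
  rw [inc_apply, mk_mul, mk_mul]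
  congr 1
  · ext w
    simp
  · ext w
    simp
  · funext j
    ext q
    simp only [Pi.zero_apply, mul_zero, zero_add, ContinuousMap.mul_apply, yx_apply,
      zero_mul, ContinuousMap.add_apply, Polynomial.eval_mul, Polynomial.eval_sub,
      Polynomial.eval_X, Polynomial.eval_C]
    change (d.th j 0 * _ + (Polynomial.eval (kap j + ↑q.2) p • (d.xi i j * b)) *
      ((((rs j q : Dk) : ℂ) - kap i) • star d.T₂)) * d.T₂ = _
    rw [map_zero, zero_mul, zero_add, rs_apply, smul_mul_smul_comm, smul_mul_assoc, mul_assoc, d.h22,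
      mul_one]

theorem Yp_add (i : Bool) (p p' : Polynomial ℂ) (b : A₀) :
    d.Yp i (p + p') b = d.Yp i p b + d.Yp i p' b := by
  unfold Yp
  rw [mk_add]
  congr 1
  · simp
  · simp
  · funext j
    ext q
    simp [yx_apply, add_smul]

theorem Yp_smul (i : Bool) (r : ℂ) (p : Polynomial ℂ) (b : A₀) :
    d.Yp i (Polynomial.C r * p) b = r • d.Yp i p b := by
  unfold Yp
  rw [mk_smul]
  congr 1
  · simp
  · simp
  · funext j
    ext q
    simp [yx_apply, mul_smul]

theorem Yp_mem (i : Bool) (p : Polynomial ℂ) (b : A₀) : d.Yp i p b ∈ d.D i := by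
  have hX : ∀ n : ℕ, d.Yp i (Polynomial.X ^ n) b ∈ d.D i := by
    intro n
    induction n with
    | zero =>
      rw [pow_zero, ← Yp_one]
      exact mul_mem (d.s_mem i) (d.inc_mem i _)
    | succ n ih =>
      have e : (Polynomial.X : Polynomial ℂ) ^ (n + 1) =
          Polynomial.X ^ n * (Polynomial.X - Polynomial.C (kap i))
            + Polynomial.C (kap i) * Polynomial.X ^ n := by ring
      rw [e, Yp_add, Yp_smul, ← Yp_step]
      exact add_mem (mul_mem (mul_mem ih (d.s_mem i)) (d.inc_mem i _))
        (Subalgebra.smul_mem _ ih _)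
  induction p using Polynomial.induction_on' with
  | add p q hp hq => rw [Yp_add]; exact add_mem hp hq
  | monomial n a =>
    rw [← Polynomial.C_mul_X_pow_eq_monomial, Yp_smul]
    exact Subalgebra.smul_mem _ (hX n) _

/-- polynomials converging to the sign -/
noncomputable def qp : ℕ → Polynomial ℂ
  | 0 => Polynomial.X
  | n + 1 => Polynomial.C (1/2) * (3 * qp n - (qp n) ^ 3)

theorem qp_bound (j : Bool) {t : ℂ} (ht : ‖t‖ ≤ 1/4) (n : ℕ) :
    ‖(qp n).eval (kap j + t) - kap j‖ ≤ (1/4) * (1/2) ^ n := by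
  have hk : kap j ^ 2 = 1 := by cases j <;> simp [kap]
  induction n with
  | zero =>
    simp only [qp, Polynomial.eval_X, pow_zero, mul_one, add_sub_cancel_left]
    exact ht
  | succ n ih =>
    simp only [qp, Polynomial.eval_mul, Polynomial.eval_C, Polynomial.eval_sub,
      Polynomial.eval_ofNat, Polynomial.eval_pow]
    set z := (qp n).eval (kap j + t) with hz
    set h := z - kap j with hh
    have e : 1 / 2 * (3 * z - z ^ 3) - kap j = -((3 * kap j * h ^ 2 + h ^ 3) / 2) := by
      have hzz : z = kap j + h := by rw [hh]; ring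
      rw [hzz]
      have h3 : kap j ^ 3 = kap j := by rw [pow_succ, hk, one_mul]
      ring_nf
      rw [hk, h3]
      ring
    rw [e, norm_neg, norm_div]
    have hpos : (0 : ℝ) ≤ ‖h‖ := norm_nonneg _
    have hle : ‖h‖ ≤ 1/4 := by
      refine le_trans ih ?_
      have : (1/2 : ℝ) ^ n ≤ 1 := pow_le_one₀ (by norm_num) (by norm_num)
      linarith
    have hb : ‖3 * kap j * h ^ 2 + h ^ 3‖ ≤ 3 * ‖h‖ ^ 2 + ‖h‖ ^ 3 := by
      refine le_trans (norm_add_le _ _) ?_
      rw [norm_mul, norm_mul, norm_pow, norm_pow]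
      have h3 : ‖(3 : ℂ)‖ = 3 := by simp
      rw [h3]
      have : ‖kap j‖ ≤ 1 := kap_norm j
      have h4 : 3 * ‖kap j‖ * ‖h‖ ^ 2 ≤ 3 * 1 * ‖h‖ ^ 2 := by gcongr
      linarith
    have h2 : ‖(2 : ℂ)‖ = 2 := by simp
    rw [h2]
    calc ‖3 * kap j * h ^ 2 + h ^ 3‖ / 2 ≤ (3 * ‖h‖ ^ 2 + ‖h‖ ^ 3) / 2 := by gcongr
      _ ≤ ‖h‖ / 2 := by nlinarith [mul_nonneg hpos hpos]
      _ ≤ ((1/4) * (1/2) ^ n) / 2 := by gcongr
      _ = 1/4 * (1/2) ^ (n + 1) := by rw [pow_succ]; ring

/-- corner function supported over one base point -/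
noncomputable def zx (i j₀ : Bool) (b : A₀) (j : Bool) : C(Dk × Ds, A₀) :=
  if j = j₀ then cst (d.xi i j * b) else 0

theorem kap_mul (j j₀ : Bool) : (1 + kap j₀ * kap j) / 2 = if j = j₀ then 1 else 0 := by
  cases j <;> cases j₀ <;> simp [kap]

theorem Z_mem (i j₀ : Bool) (b : A₀) : d.tri 0 0 (d.zx i j₀ b) ∈ d.D i := by
  have hcont : Continuous (fun x : Bool → C(Dk × Ds, A₀) => d.tri 0 0 x) := by
    unfold tri
    apply Continuous.prodMk continuous_const
    apply Continuous.prodMk continuous_const
    apply continuous_pi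
    intro j
    unfold trd
    apply Continuous.add _ continuous_const
    apply Continuous.add continuous_const
    exact (continuous_const.mul (continuous_apply j)).mul continuous_const
  have hlim : Tendsto (fun n : ℕ => d.yx i (Polynomial.C (1/2) * (1 + Polynomial.C (kap j₀) * qp n)) b)
      atTop (𝓝 (d.zx i j₀ b)) := by
    rw [tendsto_pi_nhds]
    intro j
    rw [tendsto_iff_dist_tendsto_zero]
    have hbd : ∀ n : ℕ, dist (d.yx i (Polynomial.C (1/2) * (1 + Polynomial.C (kap j₀) * qp n)) b j)
        (d.zx i j₀ b j) ≤ (1/2) ^ n * ‖d.xi i j * b‖ := by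
      intro n
      rw [ContinuousMap.dist_le (by positivity)]
      intro q
      have e1 : d.zx i j₀ b j q = ((1 + kap j₀ * kap j) / 2) • (d.xi i j * b) := by
        rw [kap_mul]
        unfold zx
        split_ifs
        · rw [cst_apply, one_smul]
        · rw [zero_smul]; rfl
      rw [e1, yx_apply, dist_eq_norm, ← sub_smul, norm_smul]
      apply mul_le_mul_of_nonneg_right _ (norm_nonneg _)
      simp only [Polynomial.eval_mul, Polynomial.eval_C, Polynomial.eval_add, Polynomial.eval_one]
      have e2 : 1 / 2 * (1 + kap j₀ * Polynomial.eval (kap j + ↑q.2) (qp n))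
          - (1 + kap j₀ * kap j) / 2
          = kap j₀ * (Polynomial.eval (kap j + ↑q.2) (qp n) - kap j) / 2 := by ring
      rw [e2, norm_div, norm_mul]
      have ht : ‖(q.2 : ℂ)‖ ≤ 1/4 := by
        have := q.2.2
        rwa [mem_closedBall, dist_zero_right] at this
      have h1 := qp_bound j ht n
      have h2 := kap_norm j₀
      have h3 : ‖(2 : ℂ)‖ = 2 := by simp
      rw [h3]
      have h4 : (0 : ℝ) ≤ (1/2) ^ n := by positivity
      have h5 : ‖kap j₀‖ * ‖Polynomial.eval (kap j + ↑q.2) (qp n) - kap j‖ ≤ 1 * (1/4 * (1/2) ^ n) :=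
        mul_le_mul h2 h1 (norm_nonneg _) (by norm_num)
      linarith
    refine squeeze_zero (fun n => dist_nonneg) hbd ?_
    have := (tendsto_pow_atTop_nhds_zero_of_lt_one (r := (1/2 : ℝ)) (by norm_num) (by norm_num)).mul_const
      ‖d.xi i j * b‖
    rwa [zero_mul] at this
  have h2 := (hcont.tendsto _).comp hlim
  exact (d.D_closed i).mem_of_tendsto h2 (Eventually.of_forall fun n => d.Yp_mem i _ b)

theorem s_mem' (i i' : Bool) : d.s i' ∈ d.D i := by
  by_cases h : i' = i
  · rw [h]; exact d.s_mem i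
  · have e : d.s i' = d.s i + (kap i - kap i') • d.inc (star d.T₂, 0)
        + (d.tri 0 0 (d.zx i i (d.xi i' i * star d.T₁))
          + d.tri 0 0 (d.zx i i' (star (d.xi i i') * star d.T₁)))
        - d.Yp i 1 (star d.T₁) := by
      rw [eq_sub_iff_add_eq]
      unfold s Yp
      rw [inc_apply, mk_smul, mk_add, mk_add, mk_add, mk_add]
      congr 1
      · ext w
        simp
      · ext w
        simp only [ContinuousMap.add_apply, ContinuousMap.smul_apply, ContinuousMap.const_apply,
          ContinuousMap.zero_apply, add_zero]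
        change ((w : ℂ) - kap i') • star d.T₂ = ((w : ℂ) - kap i) • star d.T₂
          + (kap i - kap i') • star d.T₂
        rw [← add_smul]
        congr 1
        ring
      · funext j
        ext q
        have hj : j = i ∨ j = i' := by
          cases j <;> cases i <;> cases i' <;> simp at h ⊢
        simp only [Pi.add_apply, ContinuousMap.add_apply, cst_apply, yx_apply, Pi.smul_apply,
          Pi.zero_apply, smul_zero, ContinuousMap.zero_apply, add_zero, Polynomial.eval_one,
          one_smul]
        rcases hj with rfl | rfl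
        · have hne : ¬ (j = i') := fun h' => h h'.symm
          unfold zx
          rw [if_pos rfl, if_neg hne, cst_apply, d.xid, ContinuousMap.zero_apply, add_zero, one_mul,
            one_mul]
          abel
        · unfold zx
          rw [if_neg h, if_pos rfl, cst_apply, d.xid, ContinuousMap.zero_apply, zero_add, one_mul,
            ← mul_assoc, d.xco, one_mul]
          abel
    rw [e]
    exact sub_mem (add_mem (add_mem (d.s_mem i) (Subalgebra.smul_mem _ (d.inc_mem i _) _))
      (add_mem (d.Z_mem _ _ _) (d.Z_mem _ _ _))) (d.Yp_mem _ _ _)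

theorem D_eq (i i' : Bool) : d.D i' = d.D i := by
  apply le_antisymm
  · exact d.D_le (d.D_closed i) (d.s_mem' i i') (d.inc_mem i)
  · exact d.D_le (d.D_closed i') (d.s_mem' i' i) (d.inc_mem i')

end Data

end Q88.CI
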