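import Mathlib
import Pool.Agent.Q88.CI.Mem
import Pool.Agent.Q88.CI.Defs

set_option autoImplicit false

namespace Q88.CI

open Metric Filter Topology
open scoped CStarAlgebra

/-- restriction of a bounded operator -/
noncomputable def restr {B : Type*} [CStarAlgebra B] (D : Subalgebra ℂ B) (G : B →L[ℂ] B)
    (h : ∀ y ∈ D, G y ∈ D) : D →L[ℂ] D where
  toFun y := ⟨G y, h y y.2⟩
  map_add' x y := by
    apply Subtype.ext
    simp
  map_smul' r x := by
    apply Subtype.ext
    simp
  cont := by
    apply Continuous.subtype_mk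
    exact G.continuous.comp continuous_subtype_val

theorem restr_coe {B : Type*} [CStarAlgebra B] (D : Subalgebra ℂ B) (G : B →L[ℂ] B)
    (h : ∀ y ∈ D, G y ∈ D) (x : D) : ((restr D G h x : D) : B) = G x := rfl

namespace Data

variable {A₀ C : Type*} [CStarAlgebra A₀] [CStarAlgebra C] (d : Data A₀ C)

/-- the base point `kap i` in the disc -/
noncomputable def kpt (i : Bool) : Dk := ⟨kap i, ball_sub (kap_ball i)⟩

/-- the centre of the disc -/
noncomputable def zpt : Dk := ⟨0, by simp⟩

/-- the centre of the small disc -/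
noncomputable def spt : Ds := ⟨0, by simp⟩

theorem rs_zero (i : Bool) : rs i (zpt, spt) = kpt i := by
  apply Subtype.ext
  rw [rs_apply]
  simp [kpt, spt]

/-- the expectation -/
noncomputable def EE (i : Bool) : Big A₀ C →L[ℂ] Big A₀ C where
  toFun y := d.inc (y.2.1 (kpt i), y.1 zpt)
  map_add' x y := by
    rw [← map_add]
    rfl
  map_smul' r x := by
    rw [RingHom.id_apply, ← map_smul]
    rfl
  cont := by
    apply (map_continuous d.inc).comp
    apply Continuous.prodMk
    · exact (continuous_eval_const _).comp (continuous_fst.comp continuous_snd)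
    · exact (continuous_eval_const _).comp continuous_fst

theorem EE_apply (i : Bool) (y : Big A₀ C) : d.EE i y = d.inc (y.2.1 (kpt i), y.1 zpt) := rfl

/-- the coefficient of the first order monomial -/
noncomputable def JJ (i : Bool) : Big A₀ C →L[ℂ] (A₀ × C) where
  toFun y := (d.T₂ * dv (kap i) (kap_norm i) y.2.1
    + d.T₁ * (star d.T₁ * y.2.2 i (zpt, spt) * d.T₂), dv 0 (by simp) y.1)
  map_add' x y := by
    apply Prod.ext
    · simp only [Prod.fst_add, Prod.snd_add, map_add, Pi.add_apply, ContinuousMap.add_apply,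
        mul_add, add_mul]
      abel
    · simp only [Prod.fst_add, Prod.snd_add, map_add]
  map_smul' r x := by
    apply Prod.ext
    · simp only [Prod.smul_fst, Prod.smul_snd, map_smul, Pi.smul_apply, ContinuousMap.smul_apply,
        mul_smul_comm, smul_mul_assoc, RingHom.id_apply, smul_add]
    · simp only [Prod.smul_fst, Prod.smul_snd, map_smul, RingHom.id_apply]
  cont := by
    apply Continuous.prodMk
    · apply Continuous.add
      · exact continuous_const.mul ((ContinuousLinearMap.continuous _).comp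
          (continuous_fst.comp continuous_snd))
      · apply continuous_const.mul
        apply Continuous.mul _ continuous_const
        apply continuous_const.mul
        exact (continuous_eval_const _).comp
          ((continuous_apply i).comp (continuous_snd.comp continuous_snd))
    · exact (ContinuousLinearMap.continuous _).comp continuous_fst

theorem JJ_apply (i : Bool) (y : Big A₀ C) : d.JJ i y =
    (d.T₂ * dv (kap i) (kap_norm i) y.2.1
    + d.T₁ * (star d.T₁ * y.2.2 i (zpt, spt) * d.T₂), dv 0 (by simp) y.1) := rfl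

/-- the projection onto the first order monomials -/
noncomputable def FF (i : Bool) : Big A₀ C →L[ℂ] Big A₀ C where
  toFun y := d.s i * d.inc (d.JJ i y)
  map_add' x y := by rw [map_add, map_add, mul_add]
  map_smul' r x := by rw [map_smul, map_smul, mul_smul_comm, RingHom.id_apply]
  cont := continuous_const.mul ((map_continuous d.inc).comp (d.JJ i).continuous)

theorem FF_apply (i : Bool) (y : Big A₀ C) : d.FF i y = d.s i * d.inc (d.JJ i y) := rfl

theorem fst_mono (i : Bool) (k : ℕ) (p : A₀ × C) (w : Dk) :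
    (d.s i ^ k * d.inc p).1 w = ((w : ℂ) - 0) ^ k • p.2 := by
  have h : (d.s i ^ k * d.inc p).1 = zf ^ k * ContinuousMap.const _ p.2 := by
    rw [Prod.fst_mul, Prod.pow_fst]
    rfl
  rw [h, sub_zero]
  change (zf w) ^ k * p.2 = _
  change ((w : ℂ) • (1 : C)) ^ k * p.2 = _
  rw [smul_pow, one_pow, smul_mul_assoc, one_mul]

theorem snd_mono (i : Bool) (k : ℕ) (p : A₀ × C) (w : Dk) :
    (d.s i ^ k * d.inc p).2.1 w = ((w : ℂ) - kap i) ^ k • ((star d.T₂) ^ k * p.1) := by
  have h : (d.s i ^ k * d.inc p).2.1 = d.fs i ^ k * ContinuousMap.const _ p.1 := by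
    rw [Prod.snd_mul, Prod.pow_snd, Prod.fst_mul, Prod.pow_fst]
    rfl
  rw [h]
  change (d.fs i w) ^ k * p.1 = _
  change (((w : ℂ) - kap i) • star d.T₂) ^ k * p.1 = _
  rw [smul_pow, smul_mul_assoc]

theorem cor_s_mul (i : Bool) {y : Big A₀ C} (hy : y ∈ d.str) :
    star d.T₁ * (d.s i * y).2.2 i (zpt, spt) * d.T₂ = star d.T₁ * y.2.1 (kpt i) := by
  obtain ⟨c, f, x, hc, hf, rfl⟩ := d.mem_str.1 hy
  have h : star d.T₁ * (d.s i * d.tri c f x).2.2 i (zpt, spt) * d.T₂
      = d.cx (d.s i * d.tri c f x) i (zpt, spt) := rfl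
  rw [h]
  unfold s
  rw [mk_mul, cx_mk]
  change d.th i ((0 : ℂ) • (1 : C)) * x i (zpt, spt) + (d.xi i i * star d.T₁) * f (rs i (zpt, spt))
    = star d.T₁ * f (kpt i)
  rw [zero_smul, map_zero, zero_mul, zero_add, d.xid, one_mul, rs_zero]

theorem cor_inc (i : Bool) (p : A₀ × C) :
    star d.T₁ * (d.inc p).2.2 i (zpt, spt) * d.T₂ = 0 := by
  have h : star d.T₁ * (d.inc p).2.2 i (zpt, spt) * d.T₂ = d.cx (d.inc p) i (zpt, spt) := rfl
  rw [h, inc_apply, cx_mk]
  rfl

theorem mono_mem (i : Bool) (k : ℕ) (p : A₀ × C) : d.s i ^ k * d.inc p ∈ d.D i :=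
  mul_mem (pow_mem (d.s_mem i) k) (d.inc_mem i p)

theorem JJ_mono (i : Bool) (k : ℕ) (p : A₀ × C) :
    d.JJ i (d.s i ^ k * d.inc p) = if k = 1 then p else 0 := by
  have e1 : dv 0 (by simp) (d.s i ^ k * d.inc p).1 = if k = 1 then p.2 else 0 :=
    dv_pow 0 _ _ k p.2 (d.fst_mono i k p)
  have e2 : dv (kap i) (kap_norm i) (d.s i ^ k * d.inc p).2.1
      = if k = 1 then (star d.T₂) ^ k * p.1 else 0 :=
    dv_pow _ _ _ k _ (d.snd_mono i k p)
  have e3 : star d.T₁ * (d.s i ^ k * d.inc p).2.2 i (zpt, spt) * d.T₂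
      = if k = 1 then star d.T₁ * p.1 else 0 := by
    rcases k with _ | m
    · rw [pow_zero, one_mul, cor_inc]
      simp
    · have e4 : d.s i ^ (m + 1) * d.inc p = d.s i * (d.s i ^ m * d.inc p) := by
        rw [pow_succ', mul_assoc]
      rw [e4, d.cor_s_mul i (d.D_le_str i (d.mono_mem i m p)), d.snd_mono]
      change star d.T₁ * ((kap i - kap i) ^ m • _) = _
      rw [sub_self]
      rcases m with _ | m
      · simp
      · simp
  rw [JJ_apply, e1, e2, e3]
  by_cases hk : k = 1
  · subst hk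
    simp only [if_true, pow_one]
    apply Prod.ext
    · change d.T₂ * (star d.T₂ * p.1) + d.T₁ * (star d.T₁ * p.1) = p.1
      rw [← mul_assoc, ← mul_assoc, ← add_mul, add_comm, d.hsum, one_mul]
    · rfl
  · simp only [if_neg hk, mul_zero, add_zero]
    rfl

theorem inc_mul_pow (i : Bool) (k : ℕ) (p : A₀ × C) :
    ∃ q, d.inc p * d.s i ^ k = d.s i ^ k * d.inc q := by
  induction k generalizing p with
  | zero => exact ⟨p, by simp⟩
  | succ k ih =>
    obtain ⟨q, hq⟩ := ih (d.al i p)
    exact ⟨q, by rw [pow_succ', ← mul_assoc, inc_mul_s, mul_assoc, hq, ← mul_assoc]⟩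

theorem word_prod (i : Bool) (w : List (Fin 1)) :
    (w.map (fun _ => d.s i)).prod = d.s i ^ w.length := by
  rw [List.map_const', List.prod_replicate]

theorem word_one (w : List (Fin 1)) (i : Fin 1) (h : w ≠ [i]) : w.length ≠ 1 := by
  intro h1
  obtain ⟨a, rfl⟩ := List.length_eq_one_iff.1 h1
  exact h (by rw [Subsingleton.elim a i])

theorem D_dense (i : Bool) : (d.D i : Set (Big A₀ C)) = closure (Submodule.span ℂ
      {x | ∃ (w : List (Fin 1)) (a : A₀ × C), x = (w.map (fun _ => d.s i)).prod * d.inc a} :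
        Set (Big A₀ C)) := by
  have hset : {x : Big A₀ C | ∃ (w : List (Fin 1)) (a : A₀ × C),
      x = (w.map (fun _ => d.s i)).prod * d.inc a} = {x | ∃ (k : ℕ) (a : A₀ × C),
      x = d.s i ^ k * d.inc a} := by
    ext x
    constructor
    · rintro ⟨w, a, rfl⟩
      exact ⟨w.length, a, by rw [word_prod]⟩
    · rintro ⟨k, a, rfl⟩
      exact ⟨List.replicate k 0, a, by rw [word_prod, List.length_replicate]⟩
  rw [hset]
  set S : Set (Big A₀ C) := {x | ∃ (k : ℕ) (a : A₀ × C), x = d.s i ^ k * d.inc a} with hS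
  apply subset_antisymm
  · have hone : (1 : Big A₀ C) ∈ Submodule.span ℂ S :=
      Submodule.subset_span ⟨0, 1, by simp⟩
    have hmul : ∀ x y, x ∈ Submodule.span ℂ S → y ∈ Submodule.span ℂ S →
        x * y ∈ Submodule.span ℂ S := by
      intro x y hx hy
      have h1 : x * y ∈ Submodule.span ℂ S * Submodule.span ℂ S := Submodule.mul_mem_mul hx hy
      rw [Submodule.span_mul_span] at h1
      refine Submodule.span_mono ?_ h1
      rintro _ ⟨_, ⟨k, a, rfl⟩, _, ⟨l, b, rfl⟩, rfl⟩
      obtain ⟨q, hq⟩ := d.inc_mul_pow i l a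
      refine ⟨k + l, q * b, ?_⟩
      change d.s i ^ k * d.inc a * (d.s i ^ l * d.inc b) = _
      rw [map_mul, pow_add, mul_assoc, ← mul_assoc (d.inc a), hq]
      simp only [mul_assoc]
    have hle : Algebra.adjoin ℂ ({d.s i} ∪ Set.range d.inc)
        ≤ (Submodule.span ℂ S).toSubalgebra hone hmul := by
      rw [Algebra.adjoin_le_iff]
      rintro y (hy | ⟨p, rfl⟩)
      · rw [Set.mem_singleton_iff.1 hy]
        exact Submodule.subset_span ⟨1, 1, by simp⟩
      · exact Submodule.subset_span ⟨0, p, by simp⟩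
    have : (d.D i : Set (Big A₀ C))
        = closure (Algebra.adjoin ℂ ({d.s i} ∪ Set.range d.inc) : Set (Big A₀ C)) :=
      Subalgebra.topologicalClosure_coe _
    rw [this]
    exact closure_mono hle
  · apply closure_minimal _ (d.D_closed i)
    have h2 : Submodule.span ℂ S ≤ Subalgebra.toSubmodule (d.D i) := by
      rw [Submodule.span_le]
      rintro _ ⟨k, a, rfl⟩
      exact d.mono_mem i k a
    exact h2

theorem diag_D (i : Bool) : Set.range d.inc = diag (d.D i) := by
  ext y
  constructor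
  · rintro ⟨p, rfl⟩
    exact ⟨d.inc_mem i p, by rw [← map_star]; exact d.inc_mem i _⟩
  · rintro ⟨h1, h2⟩
    obtain ⟨p, hp⟩ := d.diag_str (d.D_le_str i h1) (d.D_le_str i h2)
    exact ⟨p, hp.symm⟩

theorem EE_inc (i : Bool) (p : A₀ × C) : d.EE i (d.inc p) = d.inc p := by
  rw [EE_apply]
  rfl

theorem isAssociated (i : Bool) : IsAssociated (fun _ : Fin 1 => d.al i) (d.D i) := by
  refine ⟨d.D_closed i, d.inc, fun _ => d.s i, d.inc_injective, d.diag_D i, fun _ => d.s_mem i,
    ?_, ?_, fun _ a => d.inc_mul_s i a, d.D_dense i, ?_⟩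
  · refine ⟨restr (d.D i) (d.EE i) (fun y _ => by rw [EE_apply]; exact d.inc_mem i _), ?_, ?_⟩
    · intro x
      apply Subtype.ext
      rw [restr_coe, restr_coe, EE_apply d i (x : Big A₀ C), EE_inc]
    · rw [← d.diag_D i]
      ext y
      constructor
      · rintro ⟨x, rfl⟩
        exact ⟨_, rfl⟩
      · rintro ⟨p, rfl⟩
        exact ⟨⟨d.inc p, d.inc_mem i p⟩, d.EE_inc i p⟩
  · intro _ y hy
    exact ⟨fun h => d.cancel_right i (d.D_le_str i hy) h,
      fun h => d.cancel_left i (d.D_le_str i hy) h⟩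
  · intro j
    have hone : ∀ a, d.JJ i (d.s i * d.inc a) = a := by
      intro a
      have := d.JJ_mono i 1 a
      rwa [pow_one, if_pos rfl] at this
    refine ⟨restr (d.D i) (d.FF i) (fun y _ => by
      rw [FF_apply]; exact mul_mem (d.s_mem i) (d.inc_mem i _)), ?_, ?_, ?_⟩
    · intro x
      apply Subtype.ext
      rw [restr_coe, restr_coe, FF_apply, FF_apply, hone]
    · intro a x hx
      apply Subtype.ext
      rw [restr_coe, FF_apply, hx, hone]
    · intro w a x hw hx
      apply Subtype.ext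
      rw [restr_coe, FF_apply, hx, word_prod, JJ_mono, if_neg (word_one w j hw), map_zero, mul_zero]
      rfl

end Data

end Q88.CI
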