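import Mathlib
import Pool.Agent.Q88.CI.Cons
import Pool.Agent.Q88.CI.Defs

set_option autoImplicit false

namespace Q88.CI

/-- equivalent to the unit -/
def Eq1 {A : Type*} [CStarAlgebra A] (p : A) : Prop := ∃ v : A, star v * v = 1 ∧ v * star v = p

/-- the unital *-homomorphism of `ℂ × ℂ` given by a projection -/
noncomputable def projHom {A : Type*} [CStarAlgebra A] (p : A) (hp : p * p = p) (hs : star p = p) :
    (ℂ × ℂ) →⋆ₐ[ℂ] A where
  toFun z := z.1 • p + z.2 • (1 - p)
  map_one' := by simp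
  map_mul' z w := by
    have h1 : p * (1 - p) = 0 := by rw [mul_sub, mul_one, hp, sub_self]
    have h2 : (1 - p) * p = 0 := by rw [sub_mul, one_mul, hp, sub_self]
    have h3 : (1 - p) * (1 - p) = 1 - p := by rw [mul_sub, mul_one, h2, sub_zero]
    simp only [Prod.fst_mul, Prod.snd_mul, mul_add, add_mul, smul_mul_smul_comm, hp, h1, h2, h3,
      smul_zero, add_zero, zero_add]
  map_zero' := by simp
  map_add' z w := by
    simp only [Prod.fst_add, Prod.snd_add, add_smul]
    abel
  commutes' r := by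
    simp only [Prod.algebraMap_apply, Algebra.algebraMap_self, RingHom.id_apply]
    rw [← smul_add, add_sub_cancel, Algebra.algebraMap_eq_smul_one]
  map_star' z := by
    simp only [Prod.fst_star, Prod.snd_star, star_add, star_smul, star_sub, star_one, hs]

theorem projHom_apply {A : Type*} [CStarAlgebra A] (p : A) (hp : p * p = p) (hs : star p = p)
    (z : ℂ × ℂ) : projHom p hp hs z = z.1 • p + z.2 • (1 - p) := rfl

theorem projHom_int {A : Type*} [CStarAlgebra A] {p q x : A} (hp : p * p = p) (hps : star p = p)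
    (hq : q * q = q) (hqs : star q = q) (h : q * x = x * p) (z : ℂ × ℂ) :
    projHom q hq hqs z * x = x * projHom p hp hps z := by
  rw [projHom_apply, projHom_apply, add_mul, mul_add, smul_mul_assoc, smul_mul_assoc,
    mul_smul_comm, mul_smul_comm, sub_mul, mul_sub, one_mul, mul_one, h]

section char

variable {A₀ : Type*} [CStarAlgebra A₀]

/-- the property of the two scalar summands -/
def Small (h : A₀ × (ℂ × ℂ)) : Prop := h ≠ 0 ∧ h * h = h ∧ ∀ a, ∃ c : ℂ, h * a = c • h

theorem small_char (T₁ T₂ : A₀) (h11 : star T₁ * T₁ = 1) (h22 : star T₂ * T₂ = 1)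
    (h12 : star T₁ * T₂ = 0)
    {h : A₀ × (ℂ × ℂ)} (hh : Small h) : h = (0, (1, 0)) ∨ h = (0, (0, 1)) := by
  obtain ⟨hne, hid, hc⟩ := hh
  obtain ⟨t, τ₁, τ₂⟩ := h
  have hid2 : τ₁ * τ₁ = τ₁ := congrArg (fun y => y.2.1) hid
  have hid3 : τ₂ * τ₂ = τ₂ := congrArg (fun y => y.2.2) hid
  -- one dimensional
  obtain ⟨c, hc1⟩ := hc (0, (1, 0))
  have e1 : t * 0 = c • t := congrArg (fun y => y.1) hc1
  have e2 : τ₁ * 1 = c * τ₁ := congrArg (fun y => y.2.1) hc1
  have e3 : τ₂ * 0 = c * τ₂ := congrArg (fun y => y.2.2) hc1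
  obtain ⟨c', hc2⟩ := hc (0, (0, 1))
  have f1 : t * 0 = c' • t := congrArg (fun y => y.1) hc2
  have f2 : τ₁ * 0 = c' * τ₁ := congrArg (fun y => y.2.1) hc2
  have f3 : τ₂ * 1 = c' * τ₂ := congrArg (fun y => y.2.2) hc2
  have i1 : τ₁ = 0 ∨ τ₁ = 1 := by
    rcases eq_or_ne τ₁ 0 with h0 | h0
    · exact Or.inl h0
    · exact Or.inr (mul_left_cancel₀ h0 (by rw [hid2, mul_one]))
  have i2 : τ₂ = 0 ∨ τ₂ = 1 := by
    rcases eq_or_ne τ₂ 0 with h0 | h0
    · exact Or.inl h0
    · exact Or.inr (mul_left_cancel₀ h0 (by rw [hid3, mul_one]))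
  rcases i1 with h1 | h1
  · rcases i2 with h2 | h2
    · -- both vanish: then t = 0
      exfalso
      apply hne
      have key : ∀ a : A₀, ∃ c : ℂ, t * a = c • t := by
        intro a
        obtain ⟨c, hc⟩ := hc (a, 0)
        exact ⟨c, congrArg (fun y => y.1) hc⟩
      obtain ⟨c₁, k1⟩ := key T₁
      obtain ⟨c₂, k2⟩ := key T₂
      obtain ⟨d₁, k3⟩ := key (star T₁)
      obtain ⟨d₂, k4⟩ := key (star T₂)
      have ht : t = 0 := by
        have m1 : (d₁ * c₁) • t = t := by
          have : t * star T₁ * T₁ = t := by rw [mul_assoc, h11, mul_one]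
          rw [k3, smul_mul_assoc, k1, smul_smul] at this
          exact this
        have m2 : (d₂ * c₂) • t = t := by
          have : t * star T₂ * T₂ = t := by rw [mul_assoc, h22, mul_one]
          rw [k4, smul_mul_assoc, k2, smul_smul] at this
          exact this
        have m3 : (d₁ * c₂) • t = 0 := by
          have : t * star T₁ * T₂ = 0 := by rw [mul_assoc, h12, mul_zero]
          rw [k3, smul_mul_assoc, k2, smul_smul] at this
          exact this
        by_contra ht
        rcases smul_eq_zero.1 m3 with h | h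
        · rcases mul_eq_zero.1 h with h | h
          · rw [h, zero_mul, zero_smul] at m1; exact ht m1.symm
          · rw [h, mul_zero, zero_smul] at m2; exact ht m2.symm
        · exact ht h
      rw [ht, h1, h2]
      rfl
    · right
      rw [h2, mul_one, mul_one] at f3
      have ht : t = 0 := by
        rw [mul_zero] at f1
        rw [← f3, one_smul] at f1
        exact f1.symm
      rw [ht, h1, h2]
  · left
    rw [h1, mul_one, mul_one] at e2
    rw [← e2] at e1 e3
    have ht : t = 0 := by simpa using e1.symm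
    have ht2 : τ₂ = 0 := by simpa using e3.symm
    rw [ht, h1, ht2]

end char

namespace Data

variable {A₀ : Type*} [CStarAlgebra A₀] (d : Data A₀ (ℂ × ℂ))

theorem small_one : Small ((0, (1, 0)) : A₀ × (ℂ × ℂ)) := by
  refine ⟨?_, ?_, fun a => ⟨a.2.1, ?_⟩⟩
  · intro h
    have := congrArg (fun y => y.2.1) h
    simp at this
  · ext <;> simp
  · ext <;> simp

theorem small_two : Small ((0, (0, 1)) : A₀ × (ℂ × ℂ)) := by
  refine ⟨?_, ?_, fun a => ⟨a.2.2, ?_⟩⟩
  · intro h
    have := congrArg (fun y => y.2.2) h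
    simp at this
  · ext <;> simp
  · ext <;> simp

theorem small_map (γ : (A₀ × (ℂ × ℂ)) ≃⋆ₐ[ℂ] (A₀ × (ℂ × ℂ))) {h : A₀ × (ℂ × ℂ)} (hh : Small h) :
    Small (γ h) := by
  obtain ⟨h1, h2, h3⟩ := hh
  refine ⟨?_, ?_, ?_⟩
  · intro h
    exact h1 ((map_eq_zero_iff γ γ.injective).1 h)
  · rw [← map_mul, h2]
  · intro a
    obtain ⟨c, hc⟩ := h3 (γ.symm a)
    refine ⟨c, ?_⟩
    have := congrArg γ hc
    rwa [map_mul, map_smul, StarAlgEquiv.apply_symm_apply] at this

theorem not_equiv (p : Bool → A₀) (hp : ∀ j, p j * p j = p j) (hs : ∀ j, star (p j) = p j)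
    (hth : ∀ j, d.th j = projHom (p j) (hp j) (hs j)) (i j : Bool)
    (hi : ¬ Eq1 (p i)) (hj : Eq1 (p j)) (hj' : Eq1 (1 - p j)) :
    ¬ UnitarilyEquivalent (fun _ : Fin 1 => d.al i) (fun _ : Fin 1 => d.al j) := by
  rintro ⟨γ, U, hsurj, hip, hact⟩
  have hgo := small_char d.T₁ d.T₂ d.h11 d.h22 d.h12 (small_map γ small_one)
  have hgt := small_char d.T₁ d.T₂ d.h11 d.h22 d.h12 (small_map γ small_two)
  have hsum : γ (0, (1, 0)) + γ (0, (0, 1)) = (0, (1, 1)) := by
    rcases hgo with h1 | h1 <;> rcases hgt with h2 | h2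
    · exfalso
      have := γ.injective (h1.trans h2.symm)
      have := congrArg (fun y => y.2.1) this
      simp at this
    · rw [h1, h2]; ext <;> simp
    · rw [h1, h2]; ext <;> simp
    · exfalso
      have := γ.injective (h1.trans h2.symm)
      have := congrArg (fun y => y.2.1) this
      simp at this
  have hunit : γ (1, 0) = (1, 0) := by
    have e : ((1, 0) : A₀ × (ℂ × ℂ)) = 1 - ((0, (1, 0)) + (0, (0, 1))) := by ext <;> simp
    rw [e, map_sub, map_one, map_add, hsum]
    ext <;> simp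
  -- the unitary
  set u : A₀ × (ℂ × ℂ) := U (fun _ => 1) 0 with hu
  have hux : ∀ x : A₀ × (ℂ × ℂ), U (fun _ => x) 0 = u * γ x := by
    intro x
    have := hact 1 (fun _ => 1) x
    simp only [map_one, one_mul] at this
    rw [this]
  have hleft : ∀ a, u * γ (d.al i a) = d.al j (γ a) * u := by
    intro a
    have h1 := hact a (fun _ => 1) 1
    simp only [mul_one, map_one] at h1
    rw [← hux]
    have := congrFun h1 0
    simpa using this
  have huu : star u * u = 1 := by
    have := hip (fun _ => 1) (fun _ => 1)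
    unfold ip at this
    simpa using this
  have huu' : u * star u = 1 := by
    obtain ⟨x, hx⟩ := hsurj (fun _ => 1)
    have h1 : u * γ (x 0) = 1 := by
      rw [← hux]
      have e : (fun _ : Fin 1 => x 0) = x := by
        funext k
        rw [Subsingleton.elim k 0]
      rw [e, hx]
    calc u * star u = u * star u * (u * γ (x 0)) := by rw [h1, mul_one]
      _ = u * (star u * u) * γ (x 0) := by simp only [mul_assoc]
      _ = 1 := by rw [huu, mul_one, h1]
  have hconj : ∀ a, γ (d.al i a) = star u * d.al j (γ a) * u := by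
    intro a
    rw [mul_assoc, ← hleft, ← mul_assoc, huu, one_mul]
  -- the image of the first scalar projection
  have hcent : ∀ h : A₀ × (ℂ × ℂ), h.1 = 0 → star u * h * u = h := by
    intro h hh
    have hc : h * u = u * h := by
      apply Prod.ext
      · simp [hh]
      · exact mul_comm _ _
    rw [mul_assoc, hc, ← mul_assoc, huu, one_mul]
  have hmain : ∃ p' : A₀, Eq1 p' ∧ d.al j (γ (0, (1, 0))) - γ (0, (1, 0))
      = (d.T₁ * p' * star d.T₁, 0) := by
    rcases hgo with h1 | h1
    · refine ⟨p j, hj, ?_⟩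
      rw [h1, al_apply, hth, projHom_apply]
      ext <;> simp
    · refine ⟨1 - p j, hj', ?_⟩
      rw [h1, al_apply, hth, projHom_apply]
      ext <;> simp
  obtain ⟨p', ⟨v, hv1, hv2⟩, hp'⟩ := hmain
  have hfirst : (γ (0, (1, 0))).1 = 0 := by
    rcases hgo with h1 | h1 <;> rw [h1]
  have hge : γ (d.T₁ * p i * star d.T₁, 0) = star u * (d.T₁ * p' * star d.T₁, 0) * u := by
    have e : ((d.T₁ * p i * star d.T₁, 0) : A₀ × (ℂ × ℂ))
        = d.al i (0, (1, 0)) - (0, (1, 0)) := by
      rw [al_apply, hth, projHom_apply]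
      ext <;> simp
    rw [e, map_sub, hconj, ← hp', mul_sub, sub_mul, hcent _ hfirst]
  -- pull back
  set w : A₀ × (ℂ × ℂ) := (d.T₁ * v, 0) with hw
  have hw1 : star w * w = (1, 0) := by
    rw [hw]
    apply Prod.ext
    · change star (d.T₁ * v) * (d.T₁ * v) = 1
      rw [star_mul, mul_assoc, ← mul_assoc (star d.T₁), d.h11, one_mul, hv1]
    · simp
  have hw2 : w * star w = (d.T₁ * p' * star d.T₁, 0) := by
    rw [hw]
    apply Prod.ext
    · change (d.T₁ * v) * star (d.T₁ * v) = d.T₁ * p' * star d.T₁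
      rw [star_mul, mul_assoc, ← mul_assoc v, hv2, mul_assoc]
    · simp
  set z := γ.symm (star u * w) with hz
  have hz1 : star z * z = (1, 0) := by
    apply γ.injective
    change γ (star z * z) = γ (1, 0)
    rw [hunit, map_mul, map_star, hz, StarAlgEquiv.apply_symm_apply, star_mul, star_star, mul_assoc,
      ← mul_assoc u, huu', one_mul, hw1]
  have hz2 : z * star z = (d.T₁ * p i * star d.T₁, 0) := by
    apply γ.injective
    change γ (z * star z) = γ (d.T₁ * p i * star d.T₁, 0)
    rw [hge, map_mul, map_star, hz, StarAlgEquiv.apply_symm_apply, star_mul, star_star, ← hw2]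
    simp only [mul_assoc]
  have k1 : star z.1 * z.1 = 1 := congrArg (fun y => y.1) hz1
  have k2 : z.1 * star z.1 = d.T₁ * p i * star d.T₁ := congrArg (fun y => y.1) hz2
  apply hi
  have k3 : d.T₁ * star d.T₁ * z.1 = z.1 := by
    calc d.T₁ * star d.T₁ * z.1 = d.T₁ * star d.T₁ * (z.1 * (star z.1 * z.1)) := by
          rw [k1, mul_one]
      _ = d.T₁ * star d.T₁ * (z.1 * star z.1) * z.1 := by simp only [mul_assoc]
      _ = d.T₁ * (star d.T₁ * d.T₁) * p i * star d.T₁ * z.1 := by rw [k2]; simp only [mul_assoc]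
      _ = z.1 * star z.1 * z.1 := by rw [d.h11, mul_one, k2]
      _ = z.1 := by rw [mul_assoc, k1, mul_one]
  refine ⟨star d.T₁ * z.1, ?_, ?_⟩
  · rw [star_mul, star_star, mul_assoc, ← mul_assoc d.T₁, k3, k1]
  · rw [star_mul, star_star]
    calc star d.T₁ * z.1 * (star z.1 * d.T₁) = star d.T₁ * (z.1 * star z.1) * d.T₁ := by
          simp only [mul_assoc]
      _ = (star d.T₁ * d.T₁) * p i * (star d.T₁ * d.T₁) := by rw [k2]; simp only [mul_assoc]
      _ = p i := by rw [d.h11, one_mul, mul_one]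

end Data

end Q88.CI
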