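import Mathlib

set_option autoImplicit false

/-! Weighted composition operators on `ℓ²(ℤ)` and the C*-algebra of pairs of operators that
agree modulo compact operators. -/

namespace Q88.CI

open Filter Topology ContinuousLinearMap

/-- the Hilbert space `ℓ²(ℤ)` -/
abbrev H : Type := lp (fun _ : ℤ => ℂ) 2

theorem two_toReal : (2 : ENNReal).toReal = 2 := rfl

theorem wsum (u : ℤ → ℂ) (hu : ∀ m, ‖u m‖ ≤ 1) (g : ℤ → ℤ) (hg : Function.Injective g) (x : H) :
    Summable (fun m => ‖u m * x (g m)‖ ^ (2 : ENNReal).toReal) := by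
  have h1 : Summable (fun n => ‖x n‖ ^ (2 : ENNReal).toReal) :=
    (lp.memℓp x).summable (by norm_num)
  have h2 : Summable (fun m => ‖x (g m)‖ ^ (2 : ENNReal).toReal) := h1.comp_injective hg
  apply Summable.of_nonneg_of_le (fun m => by positivity) _ h2
  intro m
  apply Real.rpow_le_rpow (norm_nonneg _) _ (by norm_num)
  rw [norm_mul]
  calc ‖u m‖ * ‖x (g m)‖ ≤ 1 * ‖x (g m)‖ := mul_le_mul_of_nonneg_right (hu m) (norm_nonneg _)
    _ = ‖x (g m)‖ := one_mul _

/-- weighted composition operator -/
noncomputable def wlin (u : ℤ → ℂ) (hu : ∀ m, ‖u m‖ ≤ 1) (g : ℤ → ℤ) (hg : Function.Injective g) :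
    H →ₗ[ℂ] H where
  toFun x := ⟨fun m => u m * x (g m), memℓp_gen (wsum u hu g hg x)⟩
  map_add' x y := by
    apply lp.ext
    funext m
    simp only [lp.coeFn_add, Pi.add_apply]
    ring
  map_smul' r x := by
    apply lp.ext
    funext m
    simp only [lp.coeFn_smul, Pi.smul_apply, smul_eq_mul, RingHom.id_apply]
    ring

theorem wlin_norm (u : ℤ → ℂ) (hu : ∀ m, ‖u m‖ ≤ 1) (g : ℤ → ℤ) (hg : Function.Injective g)
    (x : H) : ‖wlin u hu g hg x‖ ≤ 1 * ‖x‖ := by
  rw [one_mul]
  apply lp.norm_le_of_tsum_le (by norm_num) (norm_nonneg _)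
  rw [lp.norm_rpow_eq_tsum (by norm_num)]
  have h1 : Summable (fun n => ‖x n‖ ^ (2 : ENNReal).toReal) :=
    (lp.memℓp x).summable (by norm_num)
  have h2 : Summable (fun m => ‖x (g m)‖ ^ (2 : ENNReal).toReal) := h1.comp_injective hg
  calc (∑' m, ‖(wlin u hu g hg x) m‖ ^ (2 : ENNReal).toReal)
      ≤ ∑' m, ‖x (g m)‖ ^ (2 : ENNReal).toReal := by
        apply Summable.tsum_le_tsum _ (wsum u hu g hg x) h2
        intro m
        apply Real.rpow_le_rpow (norm_nonneg _) _ (by norm_num)
        change ‖u m * x (g m)‖ ≤ _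
        rw [norm_mul]
        calc ‖u m‖ * ‖x (g m)‖ ≤ 1 * ‖x (g m)‖ :=
              mul_le_mul_of_nonneg_right (hu m) (norm_nonneg _)
          _ = ‖x (g m)‖ := one_mul _
    _ ≤ ∑' n, ‖x n‖ ^ (2 : ENNReal).toReal :=
        tsum_comp_le_tsum_of_inj h1 (fun n => by positivity) hg

/-- weighted composition operator -/
noncomputable def wop (u : ℤ → ℂ) (hu : ∀ m, ‖u m‖ ≤ 1) (g : ℤ → ℤ) (hg : Function.Injective g) :
    H →L[ℂ] H := LinearMap.mkContinuous (wlin u hu g hg) 1 (wlin_norm u hu g hg)

theorem wop_apply (u : ℤ → ℂ) (hu : ∀ m, ‖u m‖ ≤ 1) (g : ℤ → ℤ) (hg : Function.Injective g)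
    (x : H) (m : ℤ) : wop u hu g hg x m = u m * x (g m) := rfl

theorem coord (x : H) (n : ℤ) : inner ℂ (lp.single 2 n (1 : ℂ) : H) x = x n := by
  rw [lp.inner_single_left]
  simp

theorem adj_range (u : ℤ → ℂ) (hu : ∀ m, ‖u m‖ ≤ 1) (g : ℤ → ℤ) (hg : Function.Injective g)
    (y : H) (m : ℤ) : (star (wop u hu g hg) y) (g m) = star (u m) * y m := by
  rw [star_eq_adjoint, ← coord, adjoint_inner_right]
  have h : wop u hu g hg (lp.single 2 (g m) (1 : ℂ) : H) = (lp.single 2 m (u m) : H) := by
    apply lp.ext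
    funext n
    rw [wop_apply, lp.single_apply, lp.single_apply]
    by_cases hn : n = m
    · subst hn
      simp
    · have : g n ≠ g m := fun h => hn (hg h)
      simp [Pi.single_apply, hn, this]
  rw [h, lp.inner_single_left]
  simp [mul_comm]

theorem adj_not (u : ℤ → ℂ) (hu : ∀ m, ‖u m‖ ≤ 1) (g : ℤ → ℤ) (hg : Function.Injective g)
    (y : H) (n : ℤ) (hn : ∀ m, g m ≠ n) : (star (wop u hu g hg) y) n = 0 := by
  rw [star_eq_adjoint, ← coord, adjoint_inner_right]
  have h : wop u hu g hg (lp.single 2 n (1 : ℂ) : H) = 0 := by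
    apply lp.ext
    funext k
    rw [wop_apply, lp.single_apply]
    simp [Pi.single_apply, hn k]
  rw [h, inner_zero_left]

/-- composition with an injective map -/
noncomputable def W (g : ℤ → ℤ) (hg : Function.Injective g) : H →L[ℂ] H :=
  wop (fun _ => 1) (by simp) g hg

theorem W_apply (g : ℤ → ℤ) (hg : Function.Injective g) (x : H) (m : ℤ) :
    W g hg x m = x (g m) := by
  unfold W
  rw [wop_apply, one_mul]

theorem W_adj_range (g : ℤ → ℤ) (hg : Function.Injective g) (y : H) (m : ℤ) :
    (star (W g hg) y) (g m) = y m := by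
  unfold W
  rw [adj_range]
  simp

theorem W_adj_not (g : ℤ → ℤ) (hg : Function.Injective g) (y : H) (n : ℤ) (hn : ∀ m, g m ≠ n) :
    (star (W g hg) y) n = 0 := by
  unfold W
  exact adj_not _ _ _ _ _ _ hn

theorem W_co (g : ℤ → ℤ) (hg : Function.Injective g) : W g hg * star (W g hg) = 1 := by
  ext y : 1
  apply lp.ext
  funext m
  rw [ContinuousLinearMap.mul_def, ContinuousLinearMap.comp_apply, W_apply, W_adj_range]
  rfl

/-- projection onto the coordinates `≥ c` -/
noncomputable def PP (c : ℤ) : H →L[ℂ] H :=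
  wop (fun m => if c ≤ m then 1 else 0) (fun m => by split_ifs <;> simp) id Function.injective_id

theorem PP_apply (c : ℤ) (x : H) (m : ℤ) : PP c x m = if c ≤ m then x m else 0 := by
  unfold PP
  rw [wop_apply]
  split_ifs <;> simp

theorem PP_star (c : ℤ) : star (PP c) = PP c := by
  ext y : 1
  apply lp.ext
  funext m
  rw [PP_apply]
  unfold PP
  have := adj_range (fun m => if c ≤ m then 1 else 0) (fun m => by split_ifs <;> simp) id
    Function.injective_id y m
  rw [id] at this
  rw [this]
  split_ifs <;> simp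

theorem PP_idem (c : ℤ) : PP c * PP c = PP c := by
  ext y : 1
  apply lp.ext
  funext m
  rw [ContinuousLinearMap.mul_def, ContinuousLinearMap.comp_apply, PP_apply, PP_apply]
  split_ifs <;> rfl

theorem rank_one {K : H →L[ℂ] H} (hK : ∀ x, ∀ m : ℤ, m ≠ 0 → K x m = 0) :
    IsCompactOperator K ∧ IsCompactOperator (star K : H →L[ℂ] H) := by
  set B : H →L[ℂ] ℂ := (innerSL ℂ (lp.single 2 (0 : ℤ) (1 : ℂ) : H)).comp K with hB
  set A : ℂ →L[ℂ] H := toSpanSingleton ℂ (lp.single 2 (0 : ℤ) (1 : ℂ) : H) with hA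
  have e : K = A.comp B := by
    ext x : 1
    apply lp.ext
    funext m
    have h1 : B x = K x 0 := by
      rw [hB, ContinuousLinearMap.comp_apply, innerSL_apply_apply, coord]
    rw [ContinuousLinearMap.comp_apply, h1, hA, toSpanSingleton_apply, lp.coeFn_smul,
      Pi.smul_apply, lp.single_apply]
    by_cases hm : m = 0
    · subst hm; simp
    · rw [hK x m hm]
      simp [Pi.single_apply, hm]
  have hcB : IsCompactOperator B := isCompactOperator_of_locallyCompactSpace_dom B
  constructor
  · rw [e]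
    exact hcB.clm_comp A
  · rw [e, star_eq_adjoint, adjoint_comp]
    have hcA : IsCompactOperator (adjoint A) :=
      isCompactOperator_of_locallyCompactSpace_dom (adjoint A)
    exact hcA.clm_comp (adjoint B)

/-- the C*-algebra of pairs of operators that agree modulo compact operators -/
noncomputable def Pairs : StarSubalgebra ℂ ((H →L[ℂ] H) × (H →L[ℂ] H)) where
  carrier := {p | IsCompactOperator (p.1 - p.2 : H →L[ℂ] H) ∧
    IsCompactOperator (star p.1 - star p.2 : H →L[ℂ] H)}
  mul_mem' := by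
    intro a b ha hb
    constructor
    · have e : (a * b).1 - (a * b).2 = (a.1 - a.2).comp b.1 + a.2.comp (b.1 - b.2) := by
        ext x : 1
        simp
      rw [e]
      exact (ha.1.comp_clm b.1).add (hb.1.clm_comp a.2)
    · have e : star (a * b).1 - star (a * b).2
          = (star b.1 - star b.2).comp (star a.1) + (star b.2).comp (star a.1 - star a.2) := by
        rw [Prod.fst_mul, Prod.snd_mul, star_mul, star_mul]
        ext x : 1
        simp
      rw [e]
      exact (hb.2.comp_clm (star a.1)).add (ha.2.clm_comp (star b.2))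
  add_mem' := by
    intro a b ha hb
    constructor
    · have e : (a + b).1 - (a + b).2 = (a.1 - a.2) + (b.1 - b.2) := by
        rw [Prod.fst_add, Prod.snd_add]; abel
      rw [e]
      exact ha.1.add hb.1
    · have e : star (a + b).1 - star (a + b).2 = (star a.1 - star a.2) + (star b.1 - star b.2) := by
        rw [Prod.fst_add, Prod.snd_add, star_add, star_add]; abel
      rw [e]
      exact ha.2.add hb.2
  algebraMap_mem' := by
    intro r
    constructor
    · have e : ((algebraMap ℂ ((H →L[ℂ] H) × (H →L[ℂ] H))) r).1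
          - ((algebraMap ℂ ((H →L[ℂ] H) × (H →L[ℂ] H))) r).2 = 0 := sub_self _
      rw [e]
      exact isCompactOperator_zero
    · have e : star ((algebraMap ℂ ((H →L[ℂ] H) × (H →L[ℂ] H))) r).1
          - star ((algebraMap ℂ ((H →L[ℂ] H) × (H →L[ℂ] H))) r).2 = 0 := sub_self _
      rw [e]
      exact isCompactOperator_zero
  star_mem' := by
    intro a ha
    refine ⟨ha.2, ?_⟩
    have e : star (star a).1 - star (star a).2 = a.1 - a.2 := by
      rw [Prod.fst_star, Prod.snd_star, star_star, star_star]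
    rw [e]
    exact ha.1

theorem Pairs_closed : IsClosed (Pairs : Set ((H →L[ℂ] H) × (H →L[ℂ] H))) := by
  have hc : IsClosed {K : H →L[ℂ] H | IsCompactOperator K} := isClosed_setOfPred_isCompactOperator
  have h1 : IsClosed {p : (H →L[ℂ] H) × (H →L[ℂ] H) |
      IsCompactOperator (p.1 - p.2 : H →L[ℂ] H)} :=
    hc.preimage (continuous_fst.sub continuous_snd)
  have h2 : IsClosed {p : (H →L[ℂ] H) × (H →L[ℂ] H) |
      IsCompactOperator (star p.1 - star p.2 : H →L[ℂ] H)} :=
    hc.preimage ((continuous_star.comp continuous_fst).sub (continuous_star.comp continuous_snd))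
  exact h1.inter h2

noncomputable instance : CStarAlgebra Pairs :=
  StarSubalgebra.cstarAlgebra Pairs (h_closed := Pairs_closed)

end Q88.CI
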