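import Mathlib
import Pool.Agent.Q88.CI.Ops
import Pool.Agent.Q88.CI.Noneq
import Pool.Agent.Q88.CI.Assoc

set_option autoImplicit false

namespace Q88.CI

open Filter Topology ContinuousLinearMap

/-- diagonal element -/
noncomputable def dg (S : H →L[ℂ] H) : Pairs := ⟨(S, S), by
  constructor
  · have e : (S - S : H →L[ℂ] H) = 0 := sub_self _
    change IsCompactOperator (S - S : H →L[ℂ] H)
    rw [e]
    exact isCompactOperator_zero
  · have e : (star S - star S : H →L[ℂ] H) = 0 := sub_self _
    change IsCompactOperator (star S - star S : H →L[ℂ] H)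
    rw [e]
    exact isCompactOperator_zero⟩

/-- pair of operators whose difference has image in the coordinate zero -/
noncomputable def pr (S T : H →L[ℂ] H) (h : ∀ x, ∀ m : ℤ, m ≠ 0 → S x m = T x m) : Pairs :=
  ⟨(S, T), by
    have h1 := rank_one (K := S - T) (by
      intro x m hm
      change S x m - T x m = 0
      rw [h x m hm, sub_self])
    refine ⟨h1.1, ?_⟩
    have e : (star S - star T : H →L[ℂ] H) = star (S - T) := (star_sub _ _).symm
    change IsCompactOperator (star S - star T : H →L[ℂ] H)
    rw [e]
    exact h1.2⟩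

theorem pair_ext {a b : Pairs} (h1 : a.1.1 = b.1.1) (h2 : a.1.2 = b.1.2) : a = b :=
  Subtype.ext (Prod.ext h1 h2)

theorem W_adj_W {g : ℤ → ℤ} (hg : Function.Injective g) (x : H) (n : ℤ) :
    (star (W g hg) * W g hg) x n = open Classical in if ∃ m, g m = n then x n else 0 := by
  rw [mul_def, comp_apply]
  split_ifs with h
  · obtain ⟨m, rfl⟩ := h
    rw [W_adj_range, W_apply]
  · push Not at h
    rw [W_adj_not _ _ _ _ h]

theorem opext {S T : H →L[ℂ] H} (h : ∀ x, ∀ n : ℤ, S x n = T x n) : S = T := by
  ext x : 1
  apply lp.ext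
  funext n
  exact h x n

/-- even coordinates -/
def ge (n : ℤ) : ℤ := 2 * n
/-- odd coordinates -/
def go (n : ℤ) : ℤ := 2 * n + 1
theorem ge_inj : Function.Injective ge := fun a b h => by unfold ge at h; omega
theorem go_inj : Function.Injective go := fun a b h => by unfold go at h; omega

/-- first coisometry -/
def ga (m : ℤ) : ℤ := if 0 ≤ m then m else m - 1
/-- second coisometry -/
def gb (m : ℤ) : ℤ := if 1 ≤ m then m else m - 1
/-- third coisometry -/
def gc (m : ℤ) : ℤ := if 0 ≤ m then m + 1 else m
theorem ga_inj : Function.Injective ga := fun a b h => by unfold ga at h; split_ifs at h <;> omega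
theorem gb_inj : Function.Injective gb := fun a b h => by unfold gb at h; split_ifs at h <;> omega
theorem gc_inj : Function.Injective gc := fun a b h => by unfold gc at h; split_ifs at h <;> omega

/-- enumeration of the nonnegative integers -/
noncomputable def gp (m : ℤ) : ℤ := ((Denumerable.eqv ℤ m : ℕ) : ℤ)
/-- enumeration of the negative integers -/
noncomputable def gm (m : ℤ) : ℤ := -1 - gp m
theorem gp_inj : Function.Injective gp := fun a b h => by
  unfold gp at h
  exact (Denumerable.eqv ℤ).injective (by exact_mod_cast h)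
theorem gm_inj : Function.Injective gm := fun a b h => by
  unfold gm at h
  exact gp_inj (by omega)
theorem gp_range (n : ℤ) : (∃ m, gp m = n) ↔ 0 ≤ n := by
  constructor
  · rintro ⟨m, rfl⟩
    unfold gp
    positivity
  · intro h
    refine ⟨(Denumerable.eqv ℤ).symm n.toNat, ?_⟩
    unfold gp
    rw [Equiv.apply_symm_apply]
    exact Int.toNat_of_nonneg h
theorem gm_range (n : ℤ) : (∃ m, gm m = n) ↔ ¬ 0 ≤ n := by
  unfold gm
  constructor
  · rintro ⟨m, hm⟩
    have := (gp_range (gp m)).1 ⟨m, rfl⟩
    omega
  · intro h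
    obtain ⟨m, hm⟩ := (gp_range (-1 - n)).2 (by omega)
    exact ⟨m, by rw [hm]; ring⟩

/-- the two projections -/
noncomputable def pj : Bool → Pairs
  | true => dg (PP 0)
  | false => pr (PP 0) (PP 1) (by
      intro x m hm
      rw [PP_apply, PP_apply]
      have : (0 ≤ m) ↔ (1 ≤ m) := by omega
      simp only [this])

theorem pj_idem (j : Bool) : pj j * pj j = pj j := by
  cases j
  · exact pair_ext (PP_idem 0) (PP_idem 1)
  · exact pair_ext (PP_idem 0) (PP_idem 0)

theorem pj_star (j : Bool) : star (pj j) = pj j := by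
  cases j
  · exact pair_ext (PP_star 0) (PP_star 1)
  · exact pair_ext (PP_star 0) (PP_star 0)

/-- the intertwiners -/
noncomputable def xj : Bool → Bool → Pairs
  | true, true => 1
  | false, false => 1
  | true, false => pr (W ga ga_inj) (W gb gb_inj) (by
      intro x m hm
      rw [W_apply, W_apply]
      have : ga m = gb m := by unfold ga gb; split_ifs <;> omega
      rw [this])
  | false, true => dg (W gc gc_inj)

theorem xj_diag (i : Bool) : xj i i = 1 := by cases i <;> rfl

theorem xj_co (i j : Bool) : xj i j * star (xj i j) = 1 := by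
  cases i <;> cases j
  · change (1 : Pairs) * star 1 = 1
    rw [star_one, mul_one]
  · exact pair_ext (W_co _ _) (W_co _ _)
  · exact pair_ext (W_co _ _) (W_co _ _)
  · change (1 : Pairs) * star 1 = 1
    rw [star_one, mul_one]

theorem PP_W {c c' : ℤ} {g : ℤ → ℤ} (hg : Function.Injective g) (h : ∀ m, c ≤ m ↔ c' ≤ g m) :
    PP c * W g hg = W g hg * PP c' := by
  apply opext
  intro x n
  rw [mul_def, mul_def, comp_apply, comp_apply, PP_apply, W_apply, W_apply, PP_apply]
  simp only [h n]

theorem xj_int (i j : Bool) : pj j * xj i j = xj i j * pj i := by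
  cases i <;> cases j
  · change _ * (1 : Pairs) = 1 * _
    rw [mul_one, one_mul]
  · refine pair_ext (PP_W _ ?_) (PP_W _ ?_)
    · intro m; unfold gc; split_ifs <;> omega
    · intro m; unfold gc; split_ifs <;> omega
  · refine pair_ext (PP_W _ ?_) (PP_W _ ?_)
    · intro m; unfold ga; split_ifs <;> omega
    · intro m; unfold gb; split_ifs <;> omega
  · change _ * (1 : Pairs) = 1 * _
    rw [mul_one, one_mul]

/-- first isometry -/
noncomputable def Te : Pairs := dg (star (W ge ge_inj))
/-- second isometry -/
noncomputable def To : Pairs := dg (star (W go go_inj))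

theorem Te_iso : star Te * Te = 1 := by
  refine pair_ext ?_ ?_ <;>
  · change star (star (W ge ge_inj)) * star (W ge ge_inj) = 1
    rw [star_star, W_co]

theorem To_iso : star To * To = 1 := by
  refine pair_ext ?_ ?_ <;>
  · change star (star (W go go_inj)) * star (W go go_inj) = 1
    rw [star_star, W_co]

theorem Teo : Te * star Te + To * star To = 1 := by
  have key : star (W ge ge_inj) * star (star (W ge ge_inj))
      + star (W go go_inj) * star (star (W go go_inj)) = 1 := by
    rw [star_star, star_star]
    apply opext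
    intro x n
    have e : (star (W ge ge_inj) * W ge ge_inj + star (W go go_inj) * W go go_inj) x n
        = (star (W ge ge_inj) * W ge ge_inj) x n + (star (W go go_inj) * W go go_inj) x n := rfl
    rw [e, W_adj_W, W_adj_W]
    rcases Int.even_or_odd n with h | h
    · obtain ⟨k, hk⟩ := h
      rw [if_pos ⟨k, by unfold ge; omega⟩, if_neg (by
        rintro ⟨m, hm⟩; unfold go at hm; omega), add_zero]
      rfl
    · obtain ⟨k, hk⟩ := h
      rw [if_neg (by rintro ⟨m, hm⟩; unfold ge at hm; omega),
        if_pos ⟨k, by unfold go; omega⟩, zero_add]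
      rfl
  exact pair_ext key key

/-- the homomorphisms -/
noncomputable def thj (j : Bool) : (ℂ × ℂ) →⋆ₐ[ℂ] Pairs := projHom (pj j) (pj_idem j) (pj_star j)

theorem thj_int (i j : Bool) (z : ℂ × ℂ) : thj j z * xj i j = xj i j * thj i z :=
  projHom_int (pj_idem i) (pj_star i) (pj_idem j) (pj_star j) (xj_int i j) z

/-- the data of the example -/
noncomputable def ex : Data Pairs (ℂ × ℂ) :=
  { T₁ := Te
    T₂ := To
    h11 := Te_iso
    h22 := To_iso
    hsum := Teo
    th := thj
    xi := xj
    xid := xj_diag
    xint := thj_int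
    xco := xj_co }

theorem eq1_true : Eq1 (pj true) := by
  refine ⟨dg (star (W gp gp_inj)), ?_, ?_⟩
  · refine pair_ext ?_ ?_ <;>
    · change star (star (W gp gp_inj)) * star (W gp gp_inj) = 1
      rw [star_star, W_co]
  · have key : star (W gp gp_inj) * star (star (W gp gp_inj)) = PP 0 := by
      rw [star_star]
      apply opext
      intro x n
      rw [W_adj_W, PP_apply]
      simp only [gp_range]
    exact pair_ext key key

theorem eq1_true' : Eq1 (1 - pj true) := by
  refine ⟨dg (star (W gm gm_inj)), ?_, ?_⟩
  · refine pair_ext ?_ ?_ <;>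
    · change star (star (W gm gm_inj)) * star (W gm gm_inj) = 1
      rw [star_star, W_co]
  · have key : star (W gm gm_inj) * star (star (W gm gm_inj)) = 1 - PP 0 := by
      rw [star_star]
      apply opext
      intro x n
      have e : (1 - PP 0) x n = x n - PP 0 x n := rfl
      rw [W_adj_W, e, PP_apply]
      simp only [gm_range]
      split_ifs <;> simp
    exact pair_ext key key

theorem not_eq1_false : ¬ Eq1 (pj false) := by
  rintro ⟨v, h1, h2⟩
  have a1 : star v.1.1 * v.1.1 = 1 := congrArg (fun y : Pairs => y.1.1) h1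
  have a2 : star v.1.2 * v.1.2 = 1 := congrArg (fun y : Pairs => y.1.2) h1
  have b1 : v.1.1 * star v.1.1 = PP 0 := congrArg (fun y : Pairs => y.1.1) h2
  have b2 : v.1.2 * star v.1.2 = PP 1 := congrArg (fun y : Pairs => y.1.2) h2
  set V₁ := v.1.1 with hV₁
  set V₂ := v.1.2 with hV₂
  have hcomp : IsCompactOperator (V₁ - V₂ : H →L[ℂ] H) := v.2.1
  have hPP : PP 0 * PP 1 = PP 1 := by
    apply opext
    intro x n
    rw [mul_def, comp_apply, PP_apply, PP_apply]
    split_ifs with h h' <;> first | rfl | omega
  -- the isometry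
  set R : H →L[ℂ] H := star V₁ * V₂ with hR
  have hRR : star R * R = 1 := by
    have e : PP 0 * V₂ = V₂ := by
      calc PP 0 * V₂ = PP 0 * (V₂ * (star V₂ * V₂)) := by rw [a2, mul_one]
        _ = PP 0 * (V₂ * star V₂) * V₂ := by simp only [mul_assoc]
        _ = V₂ * star V₂ * V₂ := by rw [b2, hPP]
        _ = V₂ := by rw [mul_assoc, a2, mul_one]
    calc star R * R = star V₂ * (V₁ * star V₁) * V₂ := by
          rw [hR, star_mul, star_star]; simp only [mul_assoc]
      _ = star V₂ * V₂ := by rw [b1, mul_assoc, e]
      _ = 1 := a2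
  -- the compact perturbation
  set K : H →L[ℂ] H := (star V₁) * (V₁ - V₂) with hK
  have hKc : IsCompactOperator (K : H →L[ℂ] H) := hcomp.clm_comp (star V₁)
  have hRK : R = 1 - K := by
    rw [hR, hK, mul_sub, a1]
    abel
  have hinj : ∀ x, R x = 0 → x = 0 := by
    intro x hx
    have : (star R * R) x = 0 := by
      rw [mul_def, comp_apply, hx, map_zero]
    rw [hRR] at this
    exact this
  have hunit : IsUnit R := by
    rcases IsCompactOperator.hasEigenvalue_or_mem_resolventSet hKc (one_ne_zero (α := ℂ)) with h | h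
    · exfalso
      obtain ⟨x, hx⟩ := h.exists_hasEigenvector
      have h3 : K x = x := by
        have := hx.apply_eq_smul
        rw [one_smul] at this
        exact this
      apply hx.2
      apply hinj
      rw [hRK]
      change x - K x = 0
      rw [h3, sub_self]
    · rw [spectrum.mem_resolventSet_iff, map_one] at h
      rw [hRK]
      exact h
  have hRR' : R * star R = 1 := by
    obtain ⟨u, hu⟩ := hunit
    have h5 : star R = ↑u⁻¹ := by
      calc star R = star R * (↑u * ↑u⁻¹) := by rw [Units.mul_inv, mul_one]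
        _ = ↑u⁻¹ := by rw [hu, ← mul_assoc, hRR, one_mul]
    rw [h5, ← hu, Units.mul_inv]
  have h6 : PP 1 = PP 0 := by
    have h7 : star V₁ * PP 1 * V₁ = 1 := by
      rw [← hRR', hR, star_mul, star_star, ← b2]
      simp only [mul_assoc]
    have h8 : PP 1 * PP 0 = PP 1 := by
      have := congrArg star hPP
      rwa [star_mul, PP_star, PP_star] at this
    calc PP 1 = PP 0 * PP 1 * PP 0 := by rw [hPP, h8]
      _ = V₁ * (star V₁ * PP 1 * V₁) * star V₁ := by rw [← b1]; simp only [mul_assoc]
      _ = PP 0 := by rw [h7, mul_one, b1]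
  have h9 := congrArg (fun S : H →L[ℂ] H => S (lp.single 2 (0 : ℤ) (1 : ℂ) : H) 0) h6
  simp only [PP_apply] at h9
  simp at h9

theorem main : ¬ UnitarilyEquivalent (fun _ : Fin 1 => ex.al false) (fun _ : Fin 1 => ex.al true) :=
  ex.not_equiv pj pj_idem pj_star (fun _ => rfl) false true not_eq1_false eq1_true eq1_true'

end Q88.CI
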