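import Mathlib
import Pool.Agent.Q88.CI.Conc

set_option autoImplicit false

namespace Q88.CI

theorem Data.al_injective {A₀ C : Type*} [CStarAlgebra A₀] [CStarAlgebra C] (d : Data A₀ C)
    (i : Bool) : Function.Injective (d.al i) := by
  rw [injective_iff_map_eq_zero]
  intro a ha
  rw [al_apply] at ha
  have h2 : a.2 = 0 := congrArg (fun y => y.2) ha
  have h1 : d.T₂ * a.1 * star d.T₂ + d.T₁ * d.th i a.2 * star d.T₁ = 0 :=
    congrArg (fun y => y.1) ha
  rw [h2, map_zero, mul_zero, zero_mul, add_zero] at h1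
  have h3 : a.1 = 0 := by
    have := congrArg (fun y => star d.T₂ * y * d.T₂) h1
    simp only [mul_zero, zero_mul] at this
    calc a.1 = (star d.T₂ * d.T₂) * a.1 * (star d.T₂ * d.T₂) := by rw [d.h22, one_mul, mul_one]
      _ = star d.T₂ * (d.T₂ * a.1 * star d.T₂) * d.T₂ := by simp only [mul_assoc]
      _ = 0 := this
  exact Prod.ext h3 h2

theorem final : ∃ (A : Type) (_ : CStarAlgebra A) (α β : Fin 1 → A →⋆ₐ[ℂ] A)
    (B : Type) (_ : CStarAlgebra B) (D : Subalgebra ℂ B),
    (∀ i, Function.Injective (α i)) ∧ (∀ i, Function.Injective (β i)) ∧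
      IsAssociated α D ∧ IsAssociated β D ∧ ¬ UnitarilyEquivalent α β :=
  ⟨Pairs × (ℂ × ℂ), inferInstance, fun _ => ex.al false, fun _ => ex.al true,
    Big Pairs (ℂ × ℂ), inferInstance, ex.D false, fun _ => ex.al_injective _,
    fun _ => ex.al_injective _, ex.isAssociated false, by
      rw [ex.D_eq true false]
      exact ex.isAssociated true, main⟩

end Q88.CI
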